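import Mathlib

/-!
Rigid permutations: coordinates and certificates (helper61).

Column `a = 1, ..., p` is the vertex `e + a` of the first rim (`a = p` is `e`), its height
`sig a = 1, ..., p` is the position on the second rim above the one of `e` (`sig p = p`), and `tau`
is the inverse of `sig`.
-/

namespace Pool.Agent.Helper61.Rigid

/-- The next element of the cycle `1, 2, ..., p, 1`. -/
def nx (p a : ℕ) : ℕ := if a = p then 1 else a + 1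

/-- The previous element of the cycle `1, 2, ..., p, 1`. -/
def pv (p a : ℕ) : ℕ := if a = 1 then p else a - 1

/-- The hypotheses on the coordinates. -/
structure Hyp (p : ℕ) (sig tau : ℕ → ℕ) : Prop where
  hp : 7 ≤ p
  podd : p % 2 = 1
  sig_mem : ∀ a, 1 ≤ a → a ≤ p → 1 ≤ sig a ∧ sig a ≤ p
  tau_mem : ∀ b, 1 ≤ b → b ≤ p → 1 ≤ tau b ∧ tau b ≤ p
  tau_sig : ∀ a, 1 ≤ a → a ≤ p → tau (sig a) = a
  sig_tau : ∀ b, 1 ≤ b → b ≤ p → sig (tau b) = b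
  sig_p : sig p = p
  a_down : ∀ a, 1 ≤ a → a < p → sig (a + 1) < sig a → (sig (a + 1) + sig a) % 2 = 1
  a_up : ∀ a, 1 ≤ a → a < p → sig a < sig (a + 1) → (sig (a + 1) + sig a) % 2 = 0
  b_up : ∀ b, 1 ≤ b → b < p → tau b < tau (b + 1) → (tau (b + 1) + tau b) % 2 = 1
  b_down : ∀ b, 1 ≤ b → b < p → tau (b + 1) < tau b → (tau (b + 1) + tau b) % 2 = 0
  m_even : sig 1 % 2 = 0
  n_odd : tau 1 % 2 = 1
  nm : ∀ a, 1 ≤ a → a < p → sig a < sig (a + 1) → sig 1 ≤ sig (a + 1)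
  nz : sig 1 ≤ sig (tau (p - 1) + 1) ∨
    (sig (tau (p - 1) + 1) + 1 = sig 1 ∧ tau (sig 1 + 1) = 1 + tau 1 ∧
      tau (sig 1 - 1) + tau 1 = p + 1)

/-- A certificate: `zA a` says that the rim edge between the columns `a` and `nx a` is in `Z`,
`zB b` that the rim edge between the heights `b` and `nx b` is in `Z`, `X a` that the spoke at the
column `a` is NOT in `Z`; `cA`, `cB` are the colours (modulo `2`) of the vertices of the rims; `s`
and `t` are the two vertices missed by `Z` (`(true, a)` is the vertex of the first rim at the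
column `a`, `(false, a)` the other end of the spoke at the column `a`). -/
structure Cert (p : ℕ) (sig : ℕ → ℕ) (zA zB X : ℕ → Prop) (cA cB : ℕ → ℕ) (s t : Bool × ℕ) :
    Prop where
  colA : ∀ a, 1 ≤ a → a ≤ p → ¬ zA a → (cA a + cA (nx p a)) % 2 = 1
  colB : ∀ b, 1 ≤ b → b ≤ p → ¬ zB b → (cB b + cB (nx p b)) % 2 = 1
  colX : ∀ a, 1 ≤ a → a ≤ p → X a → (cA a + cB (sig a)) % 2 = 1
  oneA : ∀ a, 1 ≤ a → a ≤ p → ¬ (zA (pv p a) ∧ zA a)
  oneB : ∀ b, 1 ≤ b → b ≤ p → ¬ (zB (pv p b) ∧ zB b)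
  notX : ∀ a, 1 ≤ a → a ≤ p → ¬ X a →
    ¬ zA a ∧ ¬ zA (pv p a) ∧ ¬ zB (sig a) ∧ ¬ zB (pv p (sig a))
  covA : ∀ a, 1 ≤ a → a ≤ p → X a → ((zA (pv p a) ∨ zA a) ↔ ((true, a) ≠ s ∧ (true, a) ≠ t))
  covB : ∀ a, 1 ≤ a → a ≤ p → X a →
    ((zB (pv p (sig a)) ∨ zB (sig a)) ↔ ((false, a) ≠ s ∧ (false, a) ≠ t))
  st : s ≠ t
  smem : 1 ≤ s.2 ∧ s.2 ≤ p ∧ X s.2
  tmem : 1 ≤ t.2 ∧ t.2 ≤ p ∧ X t.2

/-- The statement of the core theorem. -/
def CoreStatement : Prop :=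
  ∀ (p : ℕ) (sig tau : ℕ → ℕ), Hyp p sig tau →
    ∃ (zA zB X : ℕ → Prop) (cA cB : ℕ → ℕ) (s t : Bool × ℕ), Cert p sig zA zB X cA cB s t

end Pool.Agent.Helper61.Rigid
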