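import Pool.Agent.Helper61.Rigid.CertF

/-!
The core theorem: every coordinate system of a rigid permutation has a certificate (helper61).
-/

namespace Pool.Agent.Helper61.Rigid

variable {p : ℕ} {sig tau : ℕ → ℕ} {i : ℕ} {t x : ℕ → ℕ}

/-- The rim edges of the first rim for the type V. -/
def vzA (p k : ℕ) (n : ℕ → ℕ) (a : ℕ) : Prop := (∃ q ≤ k, a = n q - 1) ∨ a = p

/-- The rim edges of the second rim for the type V. -/
def vzB (p : ℕ) (sig : ℕ → ℕ) (k : ℕ) (n : ℕ → ℕ) (b : ℕ) : Prop :=
  (∃ q ≤ k, b = sig (n q - 1)) ∨ b = sig 1 ∨ b = p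

/-- The kept spokes for the type V. -/
def vX (p x0 k N : ℕ) (n : ℕ → ℕ) (a : ℕ) : Prop :=
  a = p ∨ a = 1 ∨ a = x0 ∨ (∃ q ≤ k, a = n q) ∨ (∃ q ≤ k, a = n q - 1) ∨ a = N

/-- The certificate of the type V. -/
theorem cert_V (H : Hyp p sig tau) (x0 k : ℕ) (n : ℕ → ℕ) (hx0 : x0 < p) (hx1 : 1 < x0)
    (hxe : x0 % 2 = 0) (hsx : sig x0 = sig 1 + 1)
    (hn0 : sig (n 0) = 1)
    (hodd : ∀ q ≤ k, n q % 2 = 1) (h3 : ∀ q ≤ k, 3 ≤ n q) (hnp : ∀ q ≤ k, n q < p)
    (hso : ∀ q ≤ k, sig (n q) % 2 = 1) (hse : ∀ q ≤ k, sig (n q - 1) % 2 = 0)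
    (hstep : ∀ q < k, sig (n (q + 1)) = sig (n q - 1) + 1)
    (hnk : ∀ q < k, n q < n k) (hslt : ∀ q < k, sig (n q) < sig (n k))
    (hlt : ∀ q < k, sig (n q - 1) < sig (n k))
    (hskm : sig (n k) < sig 1) (hlk : sig 1 < sig (n k - 1)) (hlkp : sig (n k - 1) + 1 < p)
    (hkx : n k ≤ x0) :
    ∃ (zA zB X : ℕ → Prop) (cA cB : ℕ → ℕ) (s t : Bool × ℕ), Cert p sig zA zB X cA cB s t := by
  have hp := H.hp
  have ho := H.podd
  have hme := H.m_even
  obtain ⟨hm2, hmp⟩ := H.m_lt
  have g3 := h3 k le_rfl
  have gp := hnp k le_rfl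
  have go := hodd k le_rfl
  have gso := hso k le_rfl
  have gse := hse k le_rfl
  have gsk := H.sig_mem (n k) (by omega) (by omega)
  obtain ⟨N, hN1, hNp, hsN, hNv⟩ : ∃ N, 1 ≤ N ∧ N ≤ p ∧ sig N = sig (n k - 1) + 1 ∧
      ((n k - 1 < N ∧ N % 2 = 1) ∨ (N < n k - 1 ∧ N % 2 = 0)) := by
    have h1 := H.tau_mem (sig (n k - 1) + 1) (by omega) (by omega)
    have h2 := H.sig_tau (sig (n k - 1) + 1) (by omega) (by omega)
    refine ⟨_, h1.1, h1.2, h2, ?_⟩
    have h4 := H.b_up (sig (n k - 1)) (by omega) (by omega)
    have h5 := H.b_down (sig (n k - 1)) (by omega) (by omega)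
    rw [H.tau_sig (n k - 1) (by omega) (by omega)] at h4 h5
    rcases Nat.lt_trichotomy (tau (sig (n k - 1) + 1)) (n k - 1) with h6 | h6 | h6
    · right
      have := h5 h6
      exact ⟨h6, by omega⟩
    · exfalso
      rw [h6] at h2
      omega
    · left
      have := h4 h6
      exact ⟨h6, by omega⟩
  have hsp := H.sig_p
  have hNnep : N ≠ p := by
    intro h; rw [h] at hsN; omega
  have hN1' : N ≠ 1 := by
    intro h; rw [h] at hsN; omega
  have hNx : N ≠ x0 := by
    intro h; rw [h] at hsN; omega
  have hNn : ∀ q ≤ k, N ≠ n q := by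
    intro q hq h
    rw [h] at hsN
    rcases Nat.lt_or_ge q k with h1 | h1
    · have := hslt q h1
      omega
    · have h2 : q = k := by omega
      rw [h2] at hsN
      omega
  have hNl : ∀ q ≤ k, N ≠ n q - 1 := by
    intro q hq h
    have h1 := hse q hq
    rw [← h] at h1
    omega
  have hxl : ∀ q ≤ k, x0 ≠ n q - 1 := by
    intro q hq h
    have h1 := hse q hq
    rw [← h] at h1
    omega
  have hl1 : ∀ q ≤ k, sig (n q - 1) + 1 < p := by
    intro q hq
    rcases Nat.lt_or_ge q k with h1 | h1
    · have := hlt q h1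
      omega
    · have : q = k := by omega
      rw [this]
      exact hlkp
  refine ⟨vzA p k n, vzB p sig k n, vX p x0 k N n,
    fun a => a + (if a < n k then 0 else 1),
    fun b => b + (if b < sig (n k) then 1 else if b ≤ sig 1 then 0 else
      if b ≤ sig (n k - 1) then 1 else 0), (true, x0), (true, N), ?_⟩
  constructor
  · -- colA
    intro a ha hap hz
    have h1 : a ≠ p := fun h => hz (Or.inr h)
    have h2 : a ≠ n k - 1 := fun h => hz (Or.inl ⟨k, le_rfl, h⟩)
    rw [nx_ne h1]
    split_ifs <;> omega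
  · -- colB
    intro b hb hbp hz
    have h1 : b ≠ p := fun h => hz (Or.inr (Or.inr h))
    have h2 : b ≠ sig 1 := fun h => hz (Or.inr (Or.inl h))
    have h4 : b ≠ sig (n k - 1) := fun h => hz (Or.inl ⟨k, le_rfl, h⟩)
    have h5 : b + 1 ≠ sig (n k) := by
      intro h6
      rcases Nat.eq_zero_or_pos k with h7 | h7
      · rw [h7, hn0] at h6
        omega
      · have h8 := hstep (k - 1) (by omega)
        have h9 : k - 1 + 1 = k := by omega
        rw [h9] at h8
        exact hz (Or.inl ⟨k - 1, by omega, by omega⟩)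
    rw [nx_ne h1]
    split_ifs <;> omega
  · -- colX
    intro a ha hap hX
    rcases hX with h1 | h1 | h1 | ⟨q, hq, h1⟩ | ⟨q, hq, h1⟩ | h1
    · rw [h1, hsp]
      split_ifs <;> omega
    · subst h1
      split_ifs <;> omega
    · rw [h1, hsx]
      split_ifs <;> omega
    · rcases Nat.lt_or_ge q k with h2 | h2
      · have := hslt q h2
        have := hnk q h2
        have := hodd q hq
        have := hso q hq
        rw [h1]
        split_ifs <;> omega
      · have h2 : q = k := by omega
        rw [h1, h2]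
        split_ifs <;> omega
    · rcases Nat.lt_or_ge q k with h2 | h2
      · have := hlt q h2
        have := hnk q h2
        have := hodd q hq
        have := hse q hq
        have := h3 q hq
        rw [h1]
        split_ifs <;> omega
      · have h2 : q = k := by omega
        rw [h1, h2]
        split_ifs <;> omega
    · rw [h1, hsN]
      split_ifs <;> omega
  · -- oneA
    rintro a ha hap ⟨h1, h2⟩
    have hev : a % 2 = 0 ∨ a = p := by
      rcases h2 with ⟨q, hq, h4⟩ | h4
      · have := hodd q hq
        have := h3 q hq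
        omega
      · exact Or.inr h4
    rw [pv_eq (by omega)] at h1
    rcases h1 with ⟨q, hq, h4⟩ | h4
    · have := hodd q hq
      have := h3 q hq
      have := hnp q hq
      omega
    · omega
  · -- oneB
    rintro b hb hbp ⟨h1, h2⟩
    have hev : b % 2 = 0 ∨ b = p := by
      rcases h2 with ⟨q, hq, h4⟩ | h4 | h4
      · have := hse q hq
        omega
      · omega
      · exact Or.inr h4
    rw [pv_eq (by omega)] at h1
    rcases h1 with ⟨q, hq, h4⟩ | h4 | h4
    · have := hse q hq
      have := hl1 q hq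
      omega
    · omega
    · omega
  · -- notX
    intro a ha hap hX
    have hsa := H.sig_mem a ha hap
    refine ⟨?_, ?_, ?_, ?_⟩
    · rintro (⟨q, hq, h4⟩ | h4)
      · exact hX (Or.inr (Or.inr (Or.inr (Or.inr (Or.inl ⟨q, hq, h4⟩)))))
      · exact hX (Or.inl h4)
    · intro h1
      rcases Nat.lt_or_ge a 2 with h2 | h2
      · exact hX (Or.inr (Or.inl (by omega)))
      · rw [pv_eq h2] at h1
        rcases h1 with ⟨q, hq, h4⟩ | h4
        · have := h3 q hq
          exact hX (Or.inr (Or.inr (Or.inr (Or.inl ⟨q, hq, by omega⟩))))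
        · omega
    · rintro (⟨q, hq, h4⟩ | h4 | h4)
      · have h5 := h3 q hq
        have h6 := hnp q hq
        have h7 := H.sig_inj ha hap (by omega) (by omega) h4
        exact hX (Or.inr (Or.inr (Or.inr (Or.inr (Or.inl ⟨q, hq, h7⟩)))))
      · have h7 := H.sig_inj ha hap (by omega) (by omega) h4
        exact hX (Or.inr (Or.inl h7))
      · rw [← hsp] at h4
        have h7 := H.sig_inj ha hap (by omega) (by omega) h4
        exact hX (Or.inl h7)
    · intro h1
      rcases h1 with ⟨q, hq, h4⟩ | h4 | h4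
      · have h5 : sig a = sig (n q - 1) + 1 := by
          have := hl1 q hq
          unfold pv at h4
          split_ifs at h4 <;> omega
        rcases Nat.lt_or_ge q k with h6 | h6
        · rw [← hstep q h6] at h5
          have h7 := h3 (q + 1) (by omega)
          have h8 := hnp (q + 1) (by omega)
          have h9 := H.sig_inj ha hap (by omega) (by omega) h5
          exact hX (Or.inr (Or.inr (Or.inr (Or.inl ⟨q + 1, by omega, h9⟩))))
        · have h7 : q = k := by omega
          rw [h7, ← hsN] at h5
          have h9 := H.sig_inj ha hap hN1 hNp h5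
          exact hX (Or.inr (Or.inr (Or.inr (Or.inr (Or.inr h9)))))
      · have h5 : sig a = sig x0 := by
          unfold pv at h4
          split_ifs at h4 <;> omega
        have h9 := H.sig_inj ha hap (by omega) (by omega) h5
        exact hX (Or.inr (Or.inr (Or.inl h9)))
      · have h5 : sig a = sig (n 0) := by
          unfold pv at h4
          split_ifs at h4 <;> omega
        have h7 := h3 0 (by omega)
        have h8 := hnp 0 (by omega)
        have h9 := H.sig_inj ha hap (by omega) (by omega) h5
        exact hX (Or.inr (Or.inr (Or.inr (Or.inl ⟨0, by omega, h9⟩))))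
  · -- covA
    intro a ha hap hX
    constructor
    · intro h1
      constructor
      · intro h2
        have h4 : a = x0 := congrArg Prod.snd h2
        subst h4
        rw [pv_eq (by omega)] at h1
        rcases h1 with (⟨q, hq, h4⟩ | h4) | (⟨q, hq, h4⟩ | h4)
        · have := hodd q hq
          have := h3 q hq
          omega
        · omega
        · exact hxl q hq h4
        · omega
      · intro h2
        have h4 : a = N := congrArg Prod.snd h2
        subst h4
        rw [pv_eq (by omega)] at h1
        rcases h1 with (⟨q, hq, h4⟩ | h4) | (⟨q, hq, h4⟩ | h4)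
        · have := h3 q hq
          exact hNn q hq (by omega)
        · omega
        · exact hNl q hq h4
        · exact hNnep h4
    · rintro ⟨h1, h2⟩
      rcases hX with h4 | h4 | h4 | ⟨q, hq, h4⟩ | ⟨q, hq, h4⟩ | h4
      · right; right; exact h4
      · left; right
        rw [h4, pv_one]
      · rw [h4] at h1
        exact absurd rfl h1
      · left; left
        have := h3 q hq
        exact ⟨q, hq, by rw [pv_eq (by omega), h4]⟩
      · right; left
        exact ⟨q, hq, h4⟩
      · rw [h4] at h2
        exact absurd rfl h2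
  · -- covB
    intro a ha hap hX
    have hne1 : ∀ c, (false, a) ≠ (true, c) := by
      intro c h
      have := congrArg Prod.fst h
      simp at this
    constructor
    · intro _
      exact ⟨hne1 _, hne1 _⟩
    · intro _
      rcases hX with h4 | h4 | h4 | ⟨q, hq, h4⟩ | ⟨q, hq, h4⟩ | h4
      · right; right; right
        rw [h4, hsp]
      · right; right; left
        rw [h4]
      · left; right; left
        rw [h4, hsx, pv_eq (by omega)]
        omega
      · rcases Nat.eq_zero_or_pos q with h5 | h5
        · left; right; right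
          rw [h4, h5, hn0, pv_one]
        · obtain ⟨r, rfl⟩ : ∃ r, q = r + 1 := ⟨q - 1, by omega⟩
          left; left
          refine ⟨r, by omega, ?_⟩
          have h6 := hstep r (by omega)
          have h7 := hodd r (by omega)
          have h8 := h3 r (by omega)
          have h9 := hnp r (by omega)
          have h10 := H.sig_mem (n r - 1) (by omega) (by omega)
          rw [h4, pv_eq (by omega), h6]
          omega
      · right; left
        exact ⟨q, hq, by rw [h4]⟩
      · left; left
        refine ⟨k, le_rfl, ?_⟩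
        rw [h4, hsN, pv_eq (by omega)]
        omega
  · intro h
    exact hNx (congrArg Prod.snd h).symm
  · exact ⟨hx1.le, hx0.le, Or.inr (Or.inr (Or.inl rfl))⟩
  · exact ⟨hN1, hNp, Or.inr (Or.inr (Or.inr (Or.inr (Or.inr rfl))))⟩

/-- The end of the case E, `beta = 0`: the height of the last upper point is not `p - 1`. -/
theorem no_Z (H : Hyp p sig tau) (L : LD p sig i t x) {k : ℕ} {n : ℕ → ℕ}
    (hE : t (i + 1) = p) (hn0 : n 0 = tau 1) (hodd : n k % 2 = 1) (h3 : 3 ≤ n k) (hnp : n k < p)
    (hnk : ∀ q < k, n q < n k) (hskm : sig (n k) < sig 1) (hkx : n k ≤ x 0) :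
    sig (n k - 1) ≠ p - 1 := by
  intro h
  have hp := H.hp
  have ho := H.podd
  have hme := H.m_even
  have hno := H.n_odd
  obtain ⟨hm2, hmp⟩ := H.m_lt
  have h1 : tau (p - 1) = n k - 1 := by
    rw [← h]
    exact H.tau_sig _ (by omega) (by omega)
  have h2 : n k - 1 + 1 = n k := by omega
  have h4 := H.nz
  rw [h1, h2] at h4
  rcases h4 with h4 | ⟨h4, h5, h6⟩
  · omega
  · have h7 : x 0 = tau (sig 1 + 1) := by
      have h8 := L.sx 0 (by omega)
      rw [L.t0] at h8
      rw [← h8]
      have h9 := L.xp 0 (by omega)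
      have h10 := L.tx 0 (by omega)
      exact (H.tau_sig _ (by omega) (by omega)).symm
    have h8 : n 0 ≤ n k := by
      rcases Nat.eq_zero_or_pos k with h9 | h9
      · rw [h9]
      · exact (hnk 0 h9).le
    have h9 : n k = tau 1 := by omega
    have h10 : sig (n k) = 1 := by
      rw [h9]
      exact H.sig_tau 1 le_rfl (by omega)
    have h11 : sig 1 = 2 := by omega
    have h12 : i = 0 := by
      by_contra h13
      have h14 := L.st_lt 0 i (by omega) le_rfl
      have h15 := L.sev i le_rfl
      have h16 := L.tpos i (by omega)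
      have h17 := H.sig_mem _ h16.1 h16.2
      rw [L.t0] at h14
      omega
    rw [h12] at hE
    have h13 := L.ts 0 (by omega)
    have h14 : tau (sig 1 - 1) = tau 1 := by rw [h11]
    rw [Nat.zero_add] at h13 hE
    omega

theorem core : CoreStatement := by
  intro p sig tau H
  have hp := H.hp
  have ho := H.podd
  have hme := H.m_even
  obtain ⟨hm2, hmp⟩ := H.m_lt
  obtain ⟨i, t, x, L, hUT⟩ := exists_LD H
  have hti := L.tpos (i + 1) le_rfl
  have hti' := H.sig_mem _ hti.1 hti.2
  have hts := L.ts i le_rfl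
  have hxp := L.xp i le_rfl
  have hxt := L.tx i le_rfl
  have htio := L.todd (i + 1) le_rfl
  have hst : ∀ j ≤ i, sig (t j) ≤ sig 1 := by
    intro j hj
    have := L.st_le (Nat.zero_le j) hj
    rw [L.t0] at this
    exact this
  -- the last point of the chain is below `m`
  have hlow : ∀ (K : ℕ) (n : ℕ → ℕ), CD p sig i t x K n → sig (n 0) < sig 1 →
      sig (n K) < sig 1 ∨ K = 0 ∨ sig (n K) = sig (n (K - 1) - 1) + 1 := by
    intro K n C h
    rcases Nat.eq_zero_or_pos K with h1 | h1
    · exact Or.inr (Or.inl h1)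
    · right; right
      have := C.step (K - 1) (by omega)
      have h5 : K - 1 + 1 = K := by omega
      rw [h5] at this
      exact this
  have hlow2 : ∀ (K : ℕ) (n : ℕ → ℕ), CD p sig i t x K n → sig (n 0) < sig 1 →
      sig (n K) % 2 = 1 → sig (n K) < sig 1 := by
    intro K n C h ho'
    rcases hlow K n C h with h1 | h1 | h1
    · exact h1
    · rw [h1]; exact h
    · rcases Nat.eq_zero_or_pos K with h2 | h2
      · rw [h2]; exact h
      · have := C.sl_lt H L (q := K - 1) (by omega)
        omega
  have hnx : ∀ (K : ℕ) (n : ℕ → ℕ), CD p sig i t x K n → 1 ≤ n K → n K ≤ p →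
      (n K % 2 = 1 ∨ 1 ≤ K) → ∀ j ≤ i, n K ≠ x j := by
    intro K n C h1 h2 h3 j hj h4
    rcases Nat.eq_zero_or_pos K with h5 | h5
    · have h6 := L.xev j hj
      omega
    · have h6 := C.step (K - 1) (by omega)
      have h7 : K - 1 + 1 = K := by omega
      rw [h7, h4, L.sx j hj] at h6
      have h8 : sig (t j) = sig (n (K - 1) - 1) := by omega
      have h9 := L.tpos j (by omega)
      have h10 := C.n3 (K - 1) (by omega)
      have h11 := C.np (K - 1) (by omega)
      have h12 := C.nodd (K - 1) (by omega)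
      have h13 := H.sig_inj h9.1 h9.2 (by omega) (by omega) h8
      have h14 := L.todd j (by omega)
      omega
  rcases hUT with ⟨hU1, hU2⟩ | ⟨hT1, hT2, hT3, hT4, hT5⟩
  · -- UE
    have htm := H.tau_mem 1 le_rfl (by omega)
    have hst1 := H.sig_tau 1 le_rfl (by omega)
    obtain ⟨n, hn0, hex⟩ := chain_exit H L (tau 1) htm.1 htm.2 H.n_odd (by rw [hst1])
    have hn0' : sig (n 0) = nx p p := by
      rw [hn0, hst1, nx_self]
    have hn0'' : sig (n 0) < sig 1 := by
      rw [hn0, hst1]; omega
    obtain ⟨u, hu⟩ : ∃ u : Bool × ℕ, (t (i + 1) ≠ p ∧ u = (false, t (i + 1))) ∨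
        (t (i + 1) = p ∧ u = (true, 1)) := by
      by_cases h : t (i + 1) = p
      · exact ⟨_, Or.inr ⟨h, rfl⟩⟩
      · exact ⟨_, Or.inl ⟨h, rfl⟩⟩
    rcases hex with ⟨K, C, hK1, hK2, hK3, hK4⟩ | ⟨k, C, hk1, hk2, hk3, hk4, hk5, hk6⟩
    · have F : Fr p sig i t x K K n p (true, n K) u :=
        ⟨L, C, ⟨hK1, hK2, hK3, hlow2 K n C hn0'' hK3⟩,
          hnx K n C hK1 hK2 (by omega), hn0',
          Or.inl ⟨rfl, hU1, hU2, hu⟩, Or.inl ⟨rfl, rfl⟩⟩
      refine cert_I H F hK4 ?_
      intro h
      rw [← H.sig_p] at h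
      have h1 := H.sig_inj (by omega) le_rfl hti.1 hti.2 h
      rw [← h1, H.sig_p] at hU1
      by_contra h2
      have h3 : K = 0 := by omega
      subst h3
      rcases hK4 with ⟨_, h4⟩ | ⟨_, h4, _⟩
      · apply h4
        refine ⟨i, le_rfl, ?_, ?_⟩
        · have h5 := hK2
          have h6 : n 0 ≠ p := by
            intro h7
            rw [h7, H.sig_p] at hn0''
            omega
          have h7 := L.xev i le_rfl
          omega
        · have h5 := L.tpos i (by omega)
          have h6 := H.sig_mem _ h5.1 h5.2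
          rw [hn0, hst1]
          exact h6.1
      · omega
    · obtain ⟨g1, g2, g3, g4, g5⟩ := good_point H L hk3 hk1 hk2 hk4
      have hkp : n k ≤ x i := by
        obtain ⟨j, hj, h1, _⟩ := hk4
        have := L.x_le hj le_rfl
        omega
      have F : Fr p sig i t x k (k + 1) n p (false, n k - 1) u :=
        ⟨L, C, ⟨hk3, by omega, hk2, g3⟩,
          hnx k n C hk3 (by omega) (Or.inl hk1), hn0',
          Or.inl ⟨rfl, hU1, hU2, hu⟩, Or.inr ⟨rfl, rfl, hk1, g1, g2, g5, g4, hk5⟩⟩
      obtain ⟨beta, hb, hb1, hb2⟩ := L.exists_blk (n k) hk3 hkp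
      by_cases hV : t (i + 1) = p ∧ beta = 0
      · obtain ⟨hE, hb0⟩ := hV
        subst hb0
        have hx0 := L.xp 0 (by omega)
        have ht0 := L.tx 0 (by omega)
        rw [L.t0] at ht0
        have hsx0 := L.sx 0 (by omega)
        rw [L.t0] at hsx0
        have hlk : sig 1 < sig (n k - 1) := by
          by_contra h
          apply hk6
          refine ⟨0, by omega, by omega, ?_⟩
          rw [L.t0]
          omega
        have hlkp := H.sig_mem (n k - 1) (by omega) (by omega)
        have hnZ := no_Z H L hE hn0 hk1 g1 g2 hk5 g3 hb2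
        have hle : ∀ q ≤ k, q < k ∨ q = k := fun q hq => by omega
        refine cert_V H (x 0) k n hx0 ht0 (L.xev 0 (by omega)) hsx0 (by rw [hn0, hst1])
          ?_ ?_ ?_ ?_ ?_ C.step hk5 (fun q hq => C.sn_lt q k hq le_rfl) ?_ g3 hlk (by omega) hb2
        · intro q hq
          rcases hle q hq with h | h
          · exact C.nodd q h
          · rw [h]; exact hk1
        · intro q hq
          rcases hle q hq with h | h
          · exact C.n3 q h
          · rw [h]; exact g1
        · intro q hq
          rcases hle q hq with h | h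
          · exact C.np q h
          · rw [h]; exact g2
        · intro q hq
          rcases hle q hq with h | h
          · exact C.sodd q h
          · rw [h]; exact hk2
        · intro q hq
          rcases hle q hq with h | h
          · exact C.sev q h
          · rw [h]; exact g5
        · intro q hq
          have h1 := C.step q hq
          have h2 := C.sn_le (Nat.succ_le_of_lt hq) le_rfl
          rw [Nat.succ_eq_add_one] at h2
          omega
      · refine cert_II H F hk1 g1 g2 g4 g5 hk4 hk5 hk6 beta hb hb1 hb2 ?_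
        intro h1 _
        by_contra h2
        exact hV ⟨h1, by omega⟩
  · -- T
    have hbm := H.tau_mem (sig (t (i + 1)) + 1) (by omega) (by
      have := hst i le_rfl
      omega)
    have hbs := H.sig_tau (sig (t (i + 1)) + 1) (by omega) (by
      have := hst i le_rfl
      omega)
    have hsti := hst i le_rfl
    obtain ⟨n, hn0, hex⟩ := chain_exit H L (tau (sig (t (i + 1)) + 1)) hbm.1 hbm.2 hT5
      (by rw [hbs]; omega)
    have hn0' : sig (n 0) = nx p (sig (t (i + 1))) := by
      rw [hn0, hbs, nx_ne (by omega)]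
    have hn0'' : sig (n 0) < sig 1 := by
      rw [hn0, hbs]
      have := L.sev i le_rfl
      omega
    have hUn0 : UL sig i t x (n 0) (sig (n 0)) := by
      refine ⟨i, le_rfl, ?_, ?_⟩
      · rw [hn0]; omega
      · rw [hn0, hbs]; omega
    rcases hex with ⟨K, C, hK1, hK2, hK3, hK4⟩ | ⟨k, C, hk1, hk2, hk3, hk4, hk5, hk6⟩
    · have F : Fr p sig i t x K K n (sig (t (i + 1))) (true, n K) (false, p) :=
        ⟨L, C, ⟨hK1, hK2, hK3, hlow2 K n C hn0'' hK3⟩,
          hnx K n C hK1 hK2 (by omega), hn0',
          Or.inr ⟨rfl, hT1, hT2, hT3, rfl⟩, Or.inl ⟨rfl, rfl⟩⟩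
      refine cert_I H F hK4 ?_
      intro _
      by_contra h2
      have h3 : K = 0 := by omega
      subst h3
      rcases hK4 with ⟨_, h4⟩ | ⟨_, h4, _⟩
      · exact h4 hUn0
      · omega
    · obtain ⟨g1, g2, g3, g4, g5⟩ := good_point H L hk3 hk1 hk2 hk4
      have hkp : n k ≤ x i := by
        obtain ⟨j, hj, h1, _⟩ := hk4
        have := L.x_le hj le_rfl
        omega
      have F : Fr p sig i t x k (k + 1) n (sig (t (i + 1))) (false, n k - 1) (false, p) :=
        ⟨L, C, ⟨hk3, by omega, hk2, g3⟩,
          hnx k n C hk3 (by omega) (Or.inl hk1), hn0',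
          Or.inr ⟨rfl, hT1, hT2, hT3, rfl⟩, Or.inr ⟨rfl, rfl, hk1, g1, g2, g5, g4, hk5⟩⟩
      obtain ⟨beta, hb, hb1, hb2⟩ := L.exists_blk (n k) hk3 hkp
      refine cert_II H F hk1 g1 g2 g4 g5 hk4 hk5 hk6 beta hb hb1 hb2 ?_
      intro h1 _
      omega

end Pool.Agent.Helper61.Rigid
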