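import Pool.Agent.Helper61.Rigid.Frame

/-!
The colours of the certificates of the types I and II (helper61).
-/

namespace Pool.Agent.Helper61.Rigid

variable {p : ℕ} {sig tau : ℕ → ℕ} {i : ℕ} {t x : ℕ → ℕ}

theorem nx_self {p : ℕ} : nx p p = 1 := by
  unfold nx
  rw [if_pos rfl]

theorem nx_ne {p a : ℕ} (h : a ≠ p) : nx p a = a + 1 := by
  unfold nx
  rw [if_neg h]

/-- The certificate of the type I. -/
theorem cert_I (H : Hyp p sig tau) {K : ℕ} {n : ℕ → ℕ} {h : ℕ} {u : Bool × ℕ}
    (F : Fr p sig i t x K K n h (true, n K) u)
    (hI : (n K % 2 = 1 ∧ ¬ UL sig i t x (n K) (sig (n K))) ∨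
      (n K % 2 = 0 ∧ 1 ≤ K ∧ n K < n (K - 1) - 1))
    (hT : h = sig (t (i + 1)) → 1 ≤ K) :
    ∃ (zA zB X : ℕ → Prop) (cA cB : ℕ → ℕ) (s t : Bool × ℕ), Cert p sig zA zB X cA cB s t := by
  have hp := H.hp
  have ho := H.podd
  have hme := H.m_even
  obtain ⟨hm2, hmp⟩ := H.m_lt
  obtain ⟨hnK1, hnK2, hnK3, hnK4⟩ := F.nK
  have L := F.L
  have C := F.C
  have hst : ∀ j ≤ i, sig (t j) ≤ sig 1 := by
    intro j hj
    have := L.st_le (Nat.zero_le j) hj
    rw [L.t0] at this
    exact this
  obtain ⟨kap, hkap, hk1, hk2⟩ := L.exists_kap (sig (n K)) (by rw [L.t0]; omega)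
  have hxk := L.xp kap hkap
  have hxk0 := L.tx kap hkap
  have hxk1 := L.xev kap hkap
  -- the earlier points of the chain are before `x kap`
  have hnq : ∀ q < K, n q ≤ x kap := by
    intro q hq
    have h1 : K - 1 < K := by omega
    obtain ⟨j, hj, h2, h3⟩ := C.lU (K - 1) h1
    have h4 := C.step (K - 1) h1
    have h5 : K - 1 + 1 = K := by omega
    rw [h5] at h4
    have h6 := C.n3 (K - 1) h1
    have h7 := C.np (K - 1) h1
    have h8 := C.nodd (K - 1) h1
    have h9 := L.tpos j (by omega)
    have h10 := L.todd j (by omega)
    have h11 : sig (n (K - 1) - 1) ≠ sig (t j) := by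
      intro h
      have := H.sig_inj (by omega) (by omega) h9.1 h9.2 h
      omega
    have h12 : j ≤ kap := by
      by_contra h13
      have := hk2 j hj (by omega)
      omega
    have h14 := L.x_le h12 hkap
    have h15 : n q ≤ n (K - 1) := by
      rcases Nat.lt_or_ge q (K - 1) with h | h
      · exact (C.n_lt q (K - 1) h h1).le
      · have : q = K - 1 := by omega
        rw [this]
    have h16 : n (K - 1) - 1 ≠ x kap := by
      intro h
      have h17 := C.sev (K - 1) h1
      rw [h] at h17
      have h18 := L.sx kap hkap
      have h19 := L.sev kap hkap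
      omega
    omega
  have hK1 : 1 ≤ K → ∃ q < K, sig (n K) = sig (n q - 1) + 1 := by
    intro hK
    refine ⟨K - 1, by omega, ?_⟩
    have := C.step (K - 1) (by omega)
    have h5 : K - 1 + 1 = K := by omega
    rw [h5] at this
    exact this
  refine ⟨_, _, _, fun a => a + (if x kap < a then 1 else 0),
    fun b => b + (if b < sig (n K) then 1 else 0), _, _, F.cert H _ _ ?_ ?_ ?_⟩
  · intro a ha hap hz
    by_cases hap2 : a = p
    · subst hap2
      rw [nx_self]
      rw [if_pos hxk, if_neg (by omega)]
      omega
    · rw [nx_ne hap2]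
      have h1 : a ≠ x kap := fun h => hz (Or.inl ⟨kap, hkap, h⟩)
      split_ifs <;> omega
  · intro b hb hbp hz
    by_cases hbp2 : b = p
    · subst hbp2
      rw [nx_self]
      rcases F.hv with ⟨h1, _⟩ | ⟨h1, h2, _⟩
      · exact absurd (Or.inr (Or.inr h1.symm)) hz
      · have h3 := hT h1
        have h4 := C.sn_le (Nat.zero_le K) le_rfl
        have h5 := F.n0
        have h6 := L.tpos (i + 1) le_rfl
        have h7 := H.sig_mem _ h6.1 h6.2
        have h8 : h ≠ b := fun h8 => hz (Or.inr (Or.inr h8.symm))
        unfold nx at h5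
        rw [if_neg h8] at h5
        rw [if_neg (by omega), if_pos (by omega)]
        omega
    · rw [nx_ne hbp2]
      have h1 : b + 1 ≠ sig (n K) := by
        intro h2
        rcases Nat.eq_zero_or_pos K with h3 | h3
        · rcases F.hv with ⟨h4, _⟩ | ⟨h4, _⟩
          · have h5 := F.n0
            unfold nx at h5
            rw [if_pos h4] at h5
            rw [h3] at h2
            omega
          · have := hT h4
            omega
        · obtain ⟨q, hq, h4⟩ := hK1 h3
          exact hz (Or.inr (Or.inl ⟨q, hq, by omega⟩))
      split_ifs <;> omega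
  · intro a ha hap hX
    rcases hX with h3 | ⟨j, hj, h3⟩ | ⟨j, hj, h3⟩ | ⟨q, hq, h3⟩ | ⟨q, hq, h3⟩
    · subst h3
      rw [H.sig_p, if_pos hxk, if_neg (by omega)]
      omega
    · subst h3
      have h4 := L.todd j hj
      rcases Nat.lt_or_ge i j with h5 | h5
      · have h6 : j = i + 1 := by omega
        subst h6
        have h7 := L.x_le hkap le_rfl
        have h8 := L.ts i le_rfl
        rw [if_pos (by omega)]
        rcases F.hv with ⟨_, h9, h10, _⟩ | ⟨h1, h9, h10, _⟩
        · rw [if_neg (by omega)]
          omega
        · have h3 := hT h1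
          have h11 := C.sn_le (Nat.zero_le K) le_rfl
          have h12 := F.n0
          have h13 := hst i le_rfl
          unfold nx at h12
          rw [if_neg (by omega)] at h12
          rw [if_pos (by omega)]
          omega
      · have h6 := L.sev j h5
        rcases Nat.lt_or_ge kap j with h7 | h7
        · have h8 := L.x_lt_t kap j h7 (by omega)
          have h9 := hk2 j h5 h7
          rw [if_pos h8, if_pos h9]
          omega
        · have h8 := L.x_le h7 hkap
          have h9 := L.tx j h5
          have h10 := L.st_le h7 hkap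
          rw [if_neg (by omega), if_neg (by omega)]
          omega
    · subst h3
      have h4 := L.xev j hj
      have h5 := L.sx j hj
      have h6 := L.sev j hj
      rcases Nat.lt_or_ge kap j with h7 | h7
      · have h8 := L.x_lt h7 hj
        have h9 := hk2 j hj h7
        have h10 : sig (x j) ≠ sig (n K) := by
          intro h
          have h11 := L.xp j hj
          have := H.sig_inj ha hap hnK1 hnK2 h
          exact F.nKx j hj this.symm
        rw [if_pos h8, if_pos (by omega)]
        omega
      · have h8 := L.x_le h7 hkap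
        have h10 := L.st_le h7 hkap
        rw [if_neg (by omega), if_neg (by omega)]
        omega
    · subst h3
      rcases Nat.lt_or_ge q K with h4 | h4
      · have h5 := C.nodd q h4
        have h6 := C.sodd q h4
        have h7 := hnq q h4
        have h8 := C.sn_lt q K h4 le_rfl
        rw [if_neg (by omega), if_pos h8]
        omega
      · have h5 : q = K := by omega
        subst h5
        rcases hI with ⟨h6, h7⟩ | ⟨h6, h7, h8⟩
        · have h8 : x kap < n q := by
            by_contra h9
            exact h7 ⟨kap, hkap, by omega, hk1⟩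
          rw [if_pos h8, if_neg (lt_irrefl _)]
          omega
        · have h9 := hnq (q - 1) (by omega)
          rw [if_neg (by omega), if_neg (lt_irrefl _)]
          omega
    · subst h3
      have h5 := C.nodd q hq
      have h6 := C.sev q hq
      have h7 := hnq q hq
      have h8 := C.step q hq
      have h9 := C.sn_le (Nat.succ_le_of_lt hq) le_rfl
      have h10 := C.n3 q hq
      rw [Nat.succ_eq_add_one] at h9
      rw [if_neg (by omega), if_pos (by omega)]
      omega

/-- The colour shift of the first rim for the type II. -/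
def sA2 (c1 nk xb x1 x2 a : ℕ) : ℕ :=
  if a ≤ c1 then 0 else if a < nk then 1 else if a ≤ xb then 0 else if a ≤ x1 then 1 else
    if a ≤ x2 then 0 else 1

theorem sA2_step {c1 nk xb x1 x2 a : ℕ} (h1 : a ≠ c1) (h2 : a + 1 ≠ nk) (h3 : a ≠ xb)
    (h4 : a ≠ x1) (h5 : a ≠ x2) : sA2 c1 nk xb x1 x2 (a + 1) = sA2 c1 nk xb x1 x2 a := by
  have e1 : (a + 1 ≤ c1) ↔ (a ≤ c1) := by omega
  have e2 : (a + 1 < nk) ↔ (a < nk) := by omega
  have e3 : (a + 1 ≤ xb) ↔ (a ≤ xb) := by omega
  have e4 : (a + 1 ≤ x1) ↔ (a ≤ x1) := by omega
  have e5 : (a + 1 ≤ x2) ↔ (a ≤ x2) := by omega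
  unfold sA2
  simp only [e1, e2, e3, e4, e5]

theorem sA2_last {c1 nk xb x1 x2 a : ℕ} (h1 : c1 < a) (h2 : nk ≤ a) (h3 : xb < a)
    (h4 : x1 < a) (h5 : x2 < a) : sA2 c1 nk xb x1 x2 a = 1 := by
  unfold sA2
  rw [if_neg (by omega), if_neg (by omega), if_neg (by omega), if_neg (by omega),
    if_neg (by omega)]

/-- The colour shift of the second rim for the type II. -/
def sB2 (tb sk sa b : ℕ) : ℕ :=
  if tb < b then 0 else if sk ≤ b then 1 else if sa ≤ b then 0 else 1

theorem sB2_step {tb sk sa b : ℕ} (h1 : b ≠ tb) (h2 : b + 1 ≠ sk) (h3 : b + 1 ≠ sa) :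
    sB2 tb sk sa (b + 1) = sB2 tb sk sa b := by
  have e1 : (tb < b + 1) ↔ (tb < b) := by omega
  have e2 : (sk ≤ b + 1) ↔ (sk ≤ b) := by omega
  have e3 : (sa ≤ b + 1) ↔ (sa ≤ b) := by omega
  unfold sB2
  simp only [e1, e2, e3]

/-- The certificate of the type II. -/
theorem cert_II (H : Hyp p sig tau) {K : ℕ} {n : ℕ → ℕ} {h : ℕ} {u : Bool × ℕ}
    (F : Fr p sig i t x K (K + 1) n h (false, n K - 1) u)
    (hodd : n K % 2 = 1) (hn3 : 3 ≤ n K) (hnp : n K < p) (hsl : sig (n K) < sig (n K - 1))
    (hslev : sig (n K - 1) % 2 = 0)
    (hU : UL sig i t x (n K) (sig (n K))) (hinc : ∀ q < K, n q < n K)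
    (hl : ¬ UL sig i t x (n K - 1) (sig (n K - 1)))
    (beta : ℕ) (hb : beta ≤ i) (hb1 : t beta ≤ n K) (hb2 : n K ≤ x beta)
    (hT : t (i + 1) = p → h = p → 1 ≤ beta) :
    ∃ (zA zB X : ℕ → Prop) (cA cB : ℕ → ℕ) (s t : Bool × ℕ), Cert p sig zA zB X cA cB s t := by
  classical
  have hp := H.hp
  have ho := H.podd
  have hme := H.m_even
  obtain ⟨hm2, hmp⟩ := H.m_lt
  obtain ⟨hnK1, hnK2, hnK3, hnK4⟩ := F.nK
  have L := F.L
  have C := F.C
  have hst : ∀ j ≤ i, sig (t j) ≤ sig 1 := by
    intro j hj
    have := L.st_le (Nat.zero_le j) hj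
    rw [L.t0] at this
    exact this
  -- the end of the previous block
  obtain ⟨c1, hc1, hc1z⟩ : ∃ c1, t beta = c1 + 1 ∧ ((beta = 0 ∧ c1 = 0) ∨
      (1 ≤ beta ∧ c1 = x (beta - 1) ∧ 1 ≤ c1)) := by
    rcases Nat.eq_zero_or_pos beta with h1 | h1
    · exact ⟨0, by rw [h1, L.t0], Or.inl ⟨h1, rfl⟩⟩
    · obtain ⟨r, rfl⟩ : ∃ r, beta = r + 1 := ⟨beta - 1, by omega⟩
      refine ⟨x r, L.ts r (by omega), Or.inr ⟨h1, rfl, ?_⟩⟩
      have := L.tx r (by omega)
      omega
  have hc1x : ∀ j < beta, x j ≤ c1 := by
    intro j hj
    rcases hc1z with ⟨h1, _⟩ | ⟨h1, h2, _⟩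
    · omega
    · rw [h2]
      exact L.x_le (by omega) (by omega)
  have hblt : sig (t beta) < sig (n K - 1) := by
    by_contra h1
    exact hl ⟨beta, hb, by omega, by omega⟩
  have hsnb : sig (n K) < sig (t beta) := by
    obtain ⟨j, hj, h1, h2⟩ := hU
    have h3 : beta ≤ j := by
      by_contra h4
      have h5 := L.x_lt_t j beta (by omega) (by omega)
      omega
    have h4 := L.st_le h3 hj
    have h5 := L.sev beta hb
    omega
  have hlc : c1 < n K - 1 := by
    have h1 : n K ≠ t beta := by
      intro h2
      rw [h2] at hsnb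
      exact lt_irrefl _ hsnb
    have h2 : n K - 1 ≠ c1 := by
      rcases hc1z with ⟨h3, h4⟩ | ⟨h3, h4, _⟩
      · omega
      · intro h5
        rw [h5, h4] at hslev
        have h6 := L.sx (beta - 1) (by omega)
        have h7 := L.sev (beta - 1) (by omega)
        omega
    omega
  -- the first point of the chain in the block
  have hex : ∃ q, q ≤ K ∧ c1 < n q := ⟨K, le_rfl, by omega⟩
  obtain ⟨al, halK, hal1, hal2⟩ : ∃ al, al ≤ K ∧ c1 < n al ∧ ∀ q < al, n q ≤ c1 := by
    refine ⟨Nat.find hex, (Nat.find_spec hex).1, (Nat.find_spec hex).2, ?_⟩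
    intro q hq
    have h1 := Nat.find_min hex hq
    have h2 : q ≤ K := by
      have := (Nat.find_spec hex).1
      omega
    by_contra h3
    exact h1 ⟨h2, by omega⟩
  have hal3 : ∀ q, al ≤ q → q ≤ K → c1 < n q := by
    intro q h1 h2
    have h3 : n al ≤ n q := by
      rcases Nat.lt_or_ge al q with h4 | h4
      · rcases Nat.lt_or_ge q K with h5 | h5
        · exact (C.n_lt al q h4 h5).le
        · have h6 : q = K := by omega
          rw [h6]
          exact (hinc al (by omega)).le
      · have : q = al := by omega
        rw [this]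
    omega
  have hsal : sig (n al) ≤ sig (n K) := C.sn_le halK le_rfl
  obtain ⟨k1, hk1, hk1a, hk1b⟩ := L.exists_kap (sig (n K)) (by rw [L.t0]; omega)
  obtain ⟨k2, hk2, hk2a, hk2b⟩ := L.exists_kap (sig (n al)) (by rw [L.t0]; omega)
  have hbk1 : beta ≤ k1 := by
    by_contra h1
    have := hk1b beta hb (by omega)
    omega
  have hk12 : k1 ≤ k2 := by
    by_contra h1
    have := hk2b k1 hk1 (by omega)
    omega
  have hx1 := L.x_le hbk1 hk1
  have hx2 := L.x_le hk12 hk2
  have hxi := L.x_le hk2 le_rfl
  have hxp := L.xp i le_rfl
  have hxe1 := L.xev k1 hk1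
  -- in the case (T) the bottom of the chain
  have hbot : h = sig (t (i + 1)) → sig (t (i + 1)) < sig (t i) → sig (t (i + 1)) < sig (n al) := by
    intro h1 h2
    have h3 := C.sn_le (Nat.zero_le al) halK
    have h4 := F.n0
    have h5 := hst i le_rfl
    unfold nx at h4
    rw [if_neg (by omega)] at h4
    omega
  have hti := L.tpos (i + 1) le_rfl
  have hti' := H.sig_mem _ hti.1 hti.2
  have hti2 := hst i le_rfl
  have hts := L.ts i le_rfl
  have hstb := hst beta hb
  -- the heights just below a point of the chain
  have hzn : ∀ q ≤ K, ∀ b, 1 ≤ b → b + 1 = sig (n q) → fzB sig i K h t n b := by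
    intro q hq b hb0 hbq
    rcases Nat.eq_zero_or_pos q with h3 | h3
    · have h4 := F.n0
      rw [h3, h4] at hbq
      unfold nx at hbq
      right; right
      split_ifs at hbq with h5
      · omega
      · omega
    · have h4 := C.step (q - 1) (by omega)
      have h5 : q - 1 + 1 = q := by omega
      rw [h5] at h4
      exact Or.inr (Or.inl ⟨q - 1, by omega, by omega⟩)
  refine ⟨_, _, _,
    fun a => a + sA2 c1 (n K) (x beta) (x k1) (x k2) a,
    fun b => b + sB2 (sig (t beta)) (sig (n K)) (sig (n al)) b, _, _, F.cert H _ _ ?_ ?_ ?_⟩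
  · intro a ha hap hz
    by_cases hap2 : a = p
    · subst hap2
      rw [nx_self]
      have h1 : t (i + 1) = a := by
        by_contra h2
        exact hz (Or.inr (Or.inr ⟨rfl, h2⟩))
      have h2 : 1 ≤ beta := by
        apply hT h1
        rcases F.hv with ⟨h3, _⟩ | ⟨h3, _, _, h4, _⟩
        · exact h3
        · omega
      have h4 := sA2_last (c1 := c1) (nk := n K) (xb := x beta) (x1 := x k1) (x2 := x k2) (a := a)
        (by omega) (by omega) (by omega) (by omega) (by omega)
      rcases hc1z with ⟨h3, _⟩ | ⟨_, _, h3⟩
      · omega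
      · have h5 : sA2 c1 (n K) (x beta) (x k1) (x k2) 1 = 0 := by
          unfold sA2
          rw [if_pos h3]
        omega
    · rw [nx_ne hap2]
      have h1 : a ≠ x beta := fun h => hz (Or.inl ⟨beta, hb, h⟩)
      have h2 : a ≠ x k1 := fun h => hz (Or.inl ⟨k1, hk1, h⟩)
      have h3 : a ≠ x k2 := fun h => hz (Or.inl ⟨k2, hk2, h⟩)
      have h4 : a ≠ n K - 1 := fun h => hz (Or.inr (Or.inl ⟨K, by omega, h⟩))
      have h5 : a ≠ c1 := by
        rcases hc1z with ⟨h3, h4⟩ | ⟨h3, h4, _⟩
        · omega
        · rw [h4]
          exact fun h => hz (Or.inl ⟨beta - 1, by omega, h⟩)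
      rw [sA2_step h5 (by omega) h1 h2 h3]
      omega
  · intro b hb0 hbp hz
    by_cases hbp2 : b = p
    · subst hbp2
      rw [nx_self]
      rcases F.hv with ⟨h1, _⟩ | ⟨h1, h2, h3, _⟩
      · exact absurd (Or.inr (Or.inr h1.symm)) hz
      · have h4 := hbot h1 h3
        unfold sB2
        rw [if_pos (by omega), if_neg (by omega), if_neg (by omega), if_neg (by omega)]
        omega
    · rw [nx_ne hbp2]
      have h1 : b ≠ sig (t beta) := fun h => hz (Or.inl ⟨beta, hb, h⟩)
      have h2 : b + 1 ≠ sig (n K) := fun h => hz (hzn K le_rfl b hb0 h)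
      have h3 : b + 1 ≠ sig (n al) := fun h => hz (hzn al halK b hb0 h)
      rw [sB2_step h1 h2 h3]
      omega
  · intro a ha hap hX
    rcases hX with h3 | ⟨j, hj, h3⟩ | ⟨j, hj, h3⟩ | ⟨q, hq, h3⟩ | ⟨q, hq, h3⟩
    · subst h3
      rw [H.sig_p]
      have h4 : sig (t beta) < a := by omega
      have h5 := sA2_last (c1 := c1) (nk := n K) (xb := x beta) (x1 := x k1) (x2 := x k2) (a := a)
        (by omega) (by omega) (by omega) (by omega) (by omega)
      unfold sB2
      rw [if_pos h4]
      omega
    · subst h3
      have h4 := L.todd j hj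
      rcases Nat.lt_or_ge i j with h5 | h5
      · have h6 : j = i + 1 := by omega
        subst h6
        have h5' := sA2_last (c1 := c1) (nk := n K) (xb := x beta) (x1 := x k1) (x2 := x k2)
          (a := t (i + 1)) (by omega) (by omega) (by omega) (by omega) (by omega)
        rcases F.hv with ⟨_, h9, h10, _⟩ | ⟨h1, h9, h10, _⟩
        · have h11 : sig (t beta) < sig (t (i + 1)) := by omega
          unfold sB2
          rw [if_pos h11]
          omega
        · have h11 := hbot h1 h10
          have h12 : ¬ sig (t beta) < sig (t (i + 1)) := by omega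
          have h13 : ¬ sig (n K) ≤ sig (t (i + 1)) := by omega
          have h14 : ¬ sig (n al) ≤ sig (t (i + 1)) := by omega
          unfold sB2
          rw [if_neg h12, if_neg h13, if_neg h14]
          omega
      · unfold sA2 sB2
        have h6 := L.sev j h5
        have h7 := L.tx j h5
        rcases Nat.lt_or_ge j beta with h8 | h8
        · have h9 := hc1x j h8
          have h10 := L.st_lt j beta h8 hb
          rw [if_pos (by omega), if_pos h10]
          omega
        · have h9 := L.st_le h8 h5
          rw [if_neg (show ¬ sig (t beta) < sig (t j) by omega)]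
          rcases Nat.lt_or_ge beta j with h10 | h10
          · have h11 := L.x_lt_t beta j h10 hj
            rw [if_neg (show ¬ t j ≤ c1 by omega), if_neg (show ¬ t j < n K by omega),
              if_neg (show ¬ t j ≤ x beta by omega)]
            rcases Nat.lt_or_ge k1 j with h12 | h12
            · have h13 := L.x_lt_t k1 j h12 hj
              have h14 := hk1b j h5 h12
              rw [if_neg (show ¬ t j ≤ x k1 by omega),
                if_neg (show ¬ sig (n K) ≤ sig (t j) by omega)]
              rcases Nat.lt_or_ge k2 j with h15 | h15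
              · have h16 := L.x_lt_t k2 j h15 hj
                have h17 := hk2b j h5 h15
                rw [if_neg (show ¬ t j ≤ x k2 by omega),
                  if_neg (show ¬ sig (n al) ≤ sig (t j) by omega)]
                omega
              · have h16 := L.x_le h15 hk2
                have h17 := L.st_le h15 hk2
                rw [if_pos (show t j ≤ x k2 by omega),
                  if_pos (show sig (n al) ≤ sig (t j) by omega)]
                omega
            · have h13 := L.x_le h12 hk1
              have h14 := L.st_le h12 hk1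
              rw [if_pos (show t j ≤ x k1 by omega),
                if_pos (show sig (n K) ≤ sig (t j) by omega)]
              omega
          · have h11 : j = beta := by omega
            subst h11
            rw [if_neg (show ¬ t j ≤ c1 by omega), if_pos (show t j < n K by omega),
              if_pos (show sig (n K) ≤ sig (t j) by omega)]
            omega
    · subst h3
      have h4 := L.xev j hj
      have h5 := L.sx j hj
      have h6 := L.sev j hj
      have hodal : n al % 2 = 1 := by
        rcases Nat.lt_or_ge al K with h7 | h7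
        · exact C.nodd al h7
        · have : al = K := by omega
          rw [this]; exact hodd
      have hnal : 1 ≤ n al ∧ n al ≤ p := by
        rcases Nat.lt_or_ge al K with h7 | h7
        · have h8 := C.n3 al h7
          have h9 := C.np al h7
          omega
        · have : al = K := by omega
          rw [this]; omega
      have hneK : sig (x j) ≠ sig (n K) := by
        intro h7
        have := H.sig_inj ha hap hnK1 hnK2 h7
        omega
      have hneal : sig (x j) ≠ sig (n al) := by
        intro h7
        have := H.sig_inj ha hap hnal.1 hnal.2 h7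
        omega
      unfold sA2 sB2
      rcases Nat.lt_or_ge j beta with h8 | h8
      · have h9 := hc1x j h8
        have h10 := L.st_lt j beta h8 hb
        rw [if_pos (by omega), if_pos (by omega)]
        omega
      · rcases Nat.lt_or_ge beta j with h10 | h10
        · have h9 := L.st_lt beta j h10 hj
          rw [if_neg (show ¬ sig (t beta) < sig (x j) by omega)]
          have h11 := L.x_lt h10 hj
          rw [if_neg (show ¬ x j ≤ c1 by omega), if_neg (show ¬ x j < n K by omega),
            if_neg (show ¬ x j ≤ x beta by omega)]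
          rcases Nat.lt_or_ge k1 j with h12 | h12
          · have h13 := L.x_lt h12 hj
            have h14 := hk1b j hj h12
            rw [if_neg (show ¬ x j ≤ x k1 by omega),
              if_neg (show ¬ sig (n K) ≤ sig (x j) by omega)]
            rcases Nat.lt_or_ge k2 j with h15 | h15
            · have h16 := L.x_lt h15 hj
              have h17 := hk2b j hj h15
              rw [if_neg (show ¬ x j ≤ x k2 by omega),
                if_neg (show ¬ sig (n al) ≤ sig (x j) by omega)]
              omega
            · have h16 := L.x_le h15 hk2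
              have h17 := L.st_le h15 hk2
              rw [if_pos (show x j ≤ x k2 by omega),
                if_pos (show sig (n al) ≤ sig (x j) by omega)]
              omega
          · have h13 := L.x_le h12 hk1
            have h14 := L.st_le h12 hk1
            rw [if_pos (show x j ≤ x k1 by omega),
              if_pos (show sig (n K) ≤ sig (x j) by omega)]
            omega
        · have h11 : j = beta := by omega
          subst h11
          rw [if_neg (show ¬ x j ≤ c1 by omega), if_neg (show ¬ x j < n K by omega),
            if_pos (le_refl (x j)), if_pos (show sig (t j) < sig (x j) by omega)]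
          omega
    · subst h3
      unfold sA2 sB2
      rcases Nat.lt_or_ge q K with h4 | h4
      · have h5 := C.nodd q h4
        have h6 := C.sodd q h4
        have h8 := C.sn_lt q K h4 le_rfl
        have h9 := hinc q h4
        rw [if_neg (show ¬ sig (t beta) < sig (n q) by omega),
          if_neg (show ¬ sig (n K) ≤ sig (n q) by omega)]
        rcases Nat.lt_or_ge q al with h10 | h10
        · have h11 := hal2 q h10
          have h12 := C.sn_lt q al h10 halK
          rw [if_pos h11, if_neg (show ¬ sig (n al) ≤ sig (n q) by omega)]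
          omega
        · have h11 := hal3 q h10 hq
          have h12 := C.sn_le h10 hq
          rw [if_neg (show ¬ n q ≤ c1 by omega), if_pos h9,
            if_pos (show sig (n al) ≤ sig (n q) by omega)]
          omega
      · have h5 : q = K := by omega
        subst h5
        rw [if_neg (show ¬ n q ≤ c1 by omega), if_neg (lt_irrefl (n q)), if_pos hb2,
          if_neg (show ¬ sig (t beta) < sig (n q) by omega), if_pos (le_refl (sig (n q)))]
        omega
    · subst h3
      unfold sA2 sB2
      rcases Nat.lt_or_ge q K with h4 | h4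
      · have h5 := C.nodd q h4
        have h6 := C.sev q h4
        have h7 := C.n3 q h4
        have h8 := C.step q h4
        have h9 := C.sn_le (Nat.succ_le_of_lt h4) le_rfl
        rw [Nat.succ_eq_add_one] at h9
        have h10 := hinc q h4
        rw [if_neg (show ¬ sig (t beta) < sig (n q - 1) by omega),
          if_neg (show ¬ sig (n K) ≤ sig (n q - 1) by omega)]
        rcases Nat.lt_or_ge q al with h11 | h11
        · have h12 := hal2 q h11
          have h13 := C.sn_le (Nat.succ_le_of_lt h11) halK
          rw [Nat.succ_eq_add_one] at h13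
          rw [if_pos (show n q - 1 ≤ c1 by omega),
            if_neg (show ¬ sig (n al) ≤ sig (n q - 1) by omega)]
          omega
        · have h12 := hal3 q h11 h4.le
          have h13 := C.sn_le h11 h4.le
          have h14 := C.sl q h4
          have h15 : n q - 1 ≠ c1 := by
            rcases hc1z with ⟨h3, h4⟩ | ⟨h3, h4, _⟩
            · omega
            · intro h5
              rw [h5, h4] at h6
              have h6 := L.sx (beta - 1) (by omega)
              have h7 := L.sev (beta - 1) (by omega)
              omega
          rw [if_neg (show ¬ n q - 1 ≤ c1 by omega), if_pos (show n q - 1 < n K by omega),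
            if_pos (show sig (n al) ≤ sig (n q - 1) by omega)]
          omega
      · have h5 : q = K := by omega
        subst h5
        rw [if_neg (show ¬ n q - 1 ≤ c1 by omega), if_pos (show n q - 1 < n q by omega),
          if_pos hblt]
        omega

end Pool.Agent.Helper61.Rigid
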