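import Pool.Agent.Helper61.Rigid.Stair

/-!
The ascending chain below the descending staircase (helper61).
-/

namespace Pool.Agent.Helper61.Rigid

variable {p : ℕ} {sig tau : ℕ → ℕ} {i : ℕ} {t x : ℕ → ℕ}

/-- The point `(a, b)` is below the staircase. -/
def UL (sig : ℕ → ℕ) (i : ℕ) (t x : ℕ → ℕ) (a b : ℕ) : Prop :=
  ∃ j ≤ i, a ≤ x j ∧ b ≤ sig (t j)

/-- The data of the ascending chain. -/
structure CD (p : ℕ) (sig : ℕ → ℕ) (i : ℕ) (t x : ℕ → ℕ) (K : ℕ) (n : ℕ → ℕ) : Prop where
  nodd : ∀ q < K, n q % 2 = 1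
  n3 : ∀ q < K, 3 ≤ n q
  np : ∀ q < K, n q < p
  nU : ∀ q < K, UL sig i t x (n q) (sig (n q))
  lU : ∀ q < K, UL sig i t x (n q - 1) (sig (n q - 1))
  sodd : ∀ q < K, sig (n q) % 2 = 1
  sev : ∀ q < K, sig (n q - 1) % 2 = 0
  sl : ∀ q < K, sig (n q) < sig (n q - 1)
  step : ∀ q < K, sig (n (q + 1)) = sig (n q - 1) + 1
  inc : ∀ q, q + 1 < K → n q < n (q + 1)

theorem UL.le_m (L : LD p sig i t x) {a b : ℕ} (h : UL sig i t x a b) : b ≤ sig 1 := by
  obtain ⟨j, hj, _, h2⟩ := h
  have h3 := L.st_le (Nat.zero_le j) hj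
  rw [L.t0] at h3
  omega

theorem UL.lt_p (L : LD p sig i t x) {a b : ℕ} (h : UL sig i t x a b) : a < p := by
  obtain ⟨j, hj, h2, _⟩ := h
  have h3 := L.xp j hj
  omega

theorem good_point (H : Hyp p sig tau) (L : LD p sig i t x) {a : ℕ} (h1 : 1 ≤ a)
    (hodd : a % 2 = 1) (hs : sig a % 2 = 1) (hU : UL sig i t x a (sig a)) :
    3 ≤ a ∧ a < p ∧ sig a < sig 1 ∧ sig a < sig (a - 1) ∧ sig (a - 1) % 2 = 0 := by
  have hap := hU.lt_p L
  have ham := hU.le_m L
  have hme := H.m_even
  have hne : a ≠ 1 := by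
    intro h; rw [h] at hs; omega
  have h3 : 3 ≤ a := by omega
  have hm : sig a < sig 1 := by omega
  have hr : a - 1 + 1 = a := by omega
  have hne2 : sig (a - 1) ≠ sig a := by
    intro h
    have := H.sig_inj (by omega) (by omega) h1 hap.le h
    omega
  have hlt : sig a < sig (a - 1) := by
    rcases Nat.lt_or_gt_of_ne hne2 with h | h
    · have h4 := H.nm (a - 1) (by omega) (by omega)
      rw [hr] at h4
      have := h4 h
      omega
    · exact h
  have h5 := H.a_down (a - 1) (by omega) (by omega)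
  rw [hr] at h5
  have h6 := h5 hlt
  exact ⟨h3, hap, hm, hlt, by omega⟩

/-- The chain. -/
def nn (sig tau : ℕ → ℕ) (c : ℕ) : ℕ → ℕ
  | 0 => c
  | q + 1 => tau (sig (nn sig tau c q - 1) + 1)

theorem chain_exit (H : Hyp p sig tau) (L : LD p sig i t x) (c : ℕ) (hc1 : 1 ≤ c) (hcp : c ≤ p)
    (hcodd : c % 2 = 1) (hsodd : sig c % 2 = 1) :
    ∃ n : ℕ → ℕ, n 0 = c ∧
      ((∃ K, CD p sig i t x K n ∧ 1 ≤ n K ∧ n K ≤ p ∧ sig (n K) % 2 = 1 ∧
          ((n K % 2 = 1 ∧ ¬ UL sig i t x (n K) (sig (n K))) ∨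
            (n K % 2 = 0 ∧ 1 ≤ K ∧ n K < n (K - 1) - 1))) ∨
        (∃ k, CD p sig i t x k n ∧ n k % 2 = 1 ∧ sig (n k) % 2 = 1 ∧ 1 ≤ n k ∧
          UL sig i t x (n k) (sig (n k)) ∧ (∀ q < k, n q < n k) ∧
          ¬ UL sig i t x (n k - 1) (sig (n k - 1)))) := by
  classical
  have hp := H.hp
  have ho := H.podd
  obtain ⟨hm2, hmp⟩ := H.m_lt
  have hme := H.m_even
  set n := nn sig tau c with hn
  have hn0 : n 0 = c := rfl
  have hns : ∀ q, n (q + 1) = tau (sig (n q - 1) + 1) := fun q => rfl
  refine ⟨n, hn0, ?_⟩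
  -- the induction predicate
  let Q : ℕ → Prop := fun k => CD p sig i t x k n ∧ n k % 2 = 1 ∧ sig (n k) % 2 = 1 ∧ 1 ≤ n k ∧
    UL sig i t x (n k) (sig (n k)) ∧ (∀ q < k, n q < n k)
  by_cases hU0 : UL sig i t x c (sig c)
  swap
  · left
    refine ⟨0, ⟨?_, ?_, ?_, ?_, ?_, ?_, ?_, ?_, ?_, ?_⟩, hc1, hcp, hsodd, Or.inl ⟨hcodd, hU0⟩⟩
    all_goals (intro q hq; omega)
  have hQ0 : Q 0 := by
    refine ⟨⟨?_, ?_, ?_, ?_, ?_, ?_, ?_, ?_, ?_, ?_⟩, hcodd, hsodd, hc1, hU0, ?_⟩
    all_goals (intro q hq; omega)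
  have hgrow : ∀ k, Q k → k ≤ sig (n k) := by
    intro k hk
    have : ∀ q ≤ k, q ≤ sig (n q) := by
      intro q
      induction q with
      | zero => intro _; omega
      | succ r ih =>
        intro hr
        have h1 := ih (by omega)
        have h2 := hk.1.step r (by omega)
        have h3 := hk.1.sl r (by omega)
        omega
    exact this k le_rfl
  have hex : ∃ k, Q k ∧ ¬ Q (k + 1) := by
    by_contra hcon
    push Not at hcon
    have hall : ∀ k, Q k := by
      intro k
      induction k with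
      | zero => exact hQ0
      | succ r ih => exact hcon r ih
    have h1 := hgrow (sig 1 + 1) (hall _)
    have h2 := (hall (sig 1 + 1)).2.2.2.2.1.le_m L
    omega
  obtain ⟨k, ⟨hC, hkodd, hksodd, hk1, hkU, hkinc⟩, hnot⟩ := hex
  obtain ⟨g1, g2, g3, g4, g5⟩ := good_point H L hk1 hkodd hksodd hkU
  by_cases hlU : UL sig i t x (n k - 1) (sig (n k - 1))
  swap
  · right
    exact ⟨k, hC, hkodd, hksodd, hk1, hkU, hkinc, hlU⟩
  left
  have hlm := hlU.le_m L
  have hl1 := H.sig_mem (n k - 1) (by omega) (by omega)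
  have hs := H.sig_tau (sig (n k - 1) + 1) (by omega) (by omega)
  have hmem := H.tau_mem (sig (n k - 1) + 1) (by omega) (by omega)
  rw [← hns k] at hs hmem
  have hCk : CD p sig i t x (k + 1) n := by
    refine ⟨?_, ?_, ?_, ?_, ?_, ?_, ?_, ?_, ?_, ?_⟩
    · intro q hq
      rcases Nat.lt_or_ge q k with h | h
      · exact hC.nodd q h
      · have : q = k := by omega
        rw [this]; exact hkodd
    · intro q hq
      rcases Nat.lt_or_ge q k with h | h
      · exact hC.n3 q h
      · have : q = k := by omega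
        rw [this]; exact g1
    · intro q hq
      rcases Nat.lt_or_ge q k with h | h
      · exact hC.np q h
      · have : q = k := by omega
        rw [this]; exact g2
    · intro q hq
      rcases Nat.lt_or_ge q k with h | h
      · exact hC.nU q h
      · have : q = k := by omega
        rw [this]; exact hkU
    · intro q hq
      rcases Nat.lt_or_ge q k with h | h
      · exact hC.lU q h
      · have : q = k := by omega
        rw [this]; exact hlU
    · intro q hq
      rcases Nat.lt_or_ge q k with h | h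
      · exact hC.sodd q h
      · have : q = k := by omega
        rw [this]; exact hksodd
    · intro q hq
      rcases Nat.lt_or_ge q k with h | h
      · exact hC.sev q h
      · have : q = k := by omega
        rw [this]; exact g5
    · intro q hq
      rcases Nat.lt_or_ge q k with h | h
      · exact hC.sl q h
      · have : q = k := by omega
        rw [this]; exact g4
    · intro q hq
      rcases Nat.lt_or_ge q k with h | h
      · exact hC.step q h
      · have : q = k := by omega
        rw [this]; exact hs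
    · intro q hq
      rcases Nat.lt_or_ge (q + 1) k with h | h
      · exact hC.inc q h
      · have : k = q + 1 := by omega
        rw [← this]; exact hkinc q (by omega)
  have hne : n (k + 1) ≠ n k - 1 := by
    intro h
    rw [h] at hs
    omega
  have hne2 : n (k + 1) ≠ n k := by
    intro h
    rw [h] at hs
    omega
  refine ⟨k + 1, hCk, hmem.1, hmem.2, by omega, ?_⟩
  have htl := H.tau_sig (n k - 1) (by omega) (by omega)
  rcases Nat.lt_or_gt_of_ne hne with hlt | hgt
  · right
    have h9 := H.b_down (sig (n k - 1)) (by omega) (by omega)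
    rw [htl, ← hns k] at h9
    have h10 := h9 hlt
    refine ⟨by omega, by omega, ?_⟩
    have : k + 1 - 1 = k := by omega
    rw [this]; exact hlt
  · left
    have h9 := H.b_up (sig (n k - 1)) (by omega) (by omega)
    rw [htl, ← hns k] at h9
    have h10 := h9 hgt
    have hodd : n (k + 1) % 2 = 1 := by omega
    refine ⟨hodd, ?_⟩
    intro hU
    apply hnot
    refine ⟨hCk, hodd, by omega, hmem.1, hU, ?_⟩
    intro q hq
    rcases Nat.lt_or_ge q k with h | h
    · have := hkinc q h
      omega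
    · have : q = k := by omega
      rw [this]; omega

end Pool.Agent.Helper61.Rigid
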