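import Pool.Agent.Helper61.Rigid.Chain

/-!
The matching part of the certificates (helper61).
-/

namespace Pool.Agent.Helper61.Rigid

variable {p : ℕ} {sig tau : ℕ → ℕ} {i : ℕ} {t x : ℕ → ℕ}

/-- The heights of the chain increase. -/
theorem CD.sn_lt {K : ℕ} {n : ℕ → ℕ} (C : CD p sig i t x K n) :
    ∀ q q' : ℕ, q < q' → q' ≤ K → sig (n q) < sig (n q') := by
  intro q q' h
  induction q' with
  | zero => omega
  | succ k ih =>
    intro hk
    have h1 := C.sl k (by omega)
    have h2 := C.step k (by omega)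
    rcases Nat.lt_or_ge q k with h3 | h3
    · have := ih h3 (by omega)
      omega
    · have : q = k := by omega
      subst this
      omega

theorem CD.sn_le {K : ℕ} {n : ℕ → ℕ} (C : CD p sig i t x K n) {q q' : ℕ} (h : q ≤ q')
    (hK : q' ≤ K) : sig (n q) ≤ sig (n q') := by
  rcases Nat.lt_or_ge q q' with h1 | h1
  · exact (C.sn_lt q q' h1 hK).le
  · have : q = q' := by omega
    rw [this]

theorem CD.n_lt {K : ℕ} {n : ℕ → ℕ} (C : CD p sig i t x K n) :
    ∀ q q' : ℕ, q < q' → q' < K → n q < n q' := by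
  intro q q' h
  induction q' with
  | zero => omega
  | succ k ih =>
    intro hk
    have h2 := C.inc k hk
    rcases Nat.lt_or_ge q k with h3 | h3
    · have := ih h3 (by omega)
      omega
    · have : q = k := by omega
      subst this
      omega

/-- `sig (l q) < m`. -/
theorem CD.sl_lt {K : ℕ} {n : ℕ → ℕ} (H : Hyp p sig tau) (L : LD p sig i t x)
    (C : CD p sig i t x K n) {q : ℕ} (hq : q < K) : sig (n q - 1) < sig 1 := by
  have h1 := (C.lU q hq).le_m L
  have h2 := C.nodd q hq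
  have h3 := C.n3 q hq
  have h4 := C.np q hq
  have hp := H.hp
  rcases Nat.lt_or_ge (sig (n q - 1)) (sig 1) with h | h
  · exact h
  · exfalso
    have h5 : sig (n q - 1) = sig 1 := by omega
    have h6 := H.sig_inj (by omega) (by omega) (by omega) (by omega) h5
    omega

/-- The rim edges of the first rim. -/
def fzA (p i KA : ℕ) (t x n : ℕ → ℕ) (a : ℕ) : Prop :=
  (∃ j ≤ i, a = x j) ∨ (∃ q < KA, a = n q - 1) ∨ (a = p ∧ t (i + 1) ≠ p)

/-- The rim edges of the second rim. -/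
def fzB (sig : ℕ → ℕ) (i K h : ℕ) (t n : ℕ → ℕ) (b : ℕ) : Prop :=
  (∃ j ≤ i, b = sig (t j)) ∨ (∃ q < K, b = sig (n q - 1)) ∨ b = h

/-- The kept spokes. -/
def fX (p i K KA : ℕ) (t x n : ℕ → ℕ) (a : ℕ) : Prop :=
  a = p ∨ (∃ j ≤ i + 1, a = t j) ∨ (∃ j ≤ i, a = x j) ∨ (∃ q ≤ K, a = n q) ∨
    (∃ q < KA, a = n q - 1)

/-- The frame of the certificates. -/
structure Fr (p : ℕ) (sig : ℕ → ℕ) (i : ℕ) (t x : ℕ → ℕ) (K KA : ℕ) (n : ℕ → ℕ) (h : ℕ)
    (s u : Bool × ℕ) : Prop where
  L : LD p sig i t x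
  C : CD p sig i t x K n
  nK : 1 ≤ n K ∧ n K ≤ p ∧ sig (n K) % 2 = 1 ∧ sig (n K) < sig 1
  nKx : ∀ j ≤ i, n K ≠ x j
  n0 : sig (n 0) = nx p h
  hv : (h = p ∧ sig (t (i + 1)) % 2 = 1 ∧ sig 1 < sig (t (i + 1)) ∧
      ((t (i + 1) ≠ p ∧ u = (false, t (i + 1))) ∨ (t (i + 1) = p ∧ u = (true, 1)))) ∨
    (h = sig (t (i + 1)) ∧ sig (t (i + 1)) % 2 = 0 ∧ sig (t (i + 1)) < sig (t i) ∧
      t (i + 1) < p ∧ u = (false, p))
  ty : (KA = K ∧ s = (true, n K)) ∨
    (KA = K + 1 ∧ s = (false, n K - 1) ∧ n K % 2 = 1 ∧ 3 ≤ n K ∧ n K < p ∧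
      sig (n K - 1) % 2 = 0 ∧ sig (n K) < sig (n K - 1) ∧ ∀ q < K, n q < n K)

theorem Fr.lq {K KA : ℕ} {n : ℕ → ℕ} {h : ℕ} {s u : Bool × ℕ}
    (F : Fr p sig i t x K KA n h s u) {q : ℕ} (hq : q < KA) :
    n q % 2 = 1 ∧ 3 ≤ n q ∧ n q < p ∧ sig (n q - 1) % 2 = 0 ∧ q ≤ K := by
  rcases F.ty with ⟨h1, _⟩ | ⟨h1, _, h2, h3, h4, h5, _, _⟩
  · subst h1
    exact ⟨F.C.nodd q hq, F.C.n3 q hq, F.C.np q hq, F.C.sev q hq, hq.le⟩
  · rcases Nat.lt_or_ge q K with h6 | h6
    · exact ⟨F.C.nodd q h6, F.C.n3 q h6, F.C.np q h6, F.C.sev q h6, h6.le⟩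
    · have : q = K := by omega
      subst this
      exact ⟨h2, h3, h4, h5, le_rfl⟩

theorem pv_eq {p a : ℕ} (ha : 2 ≤ a) : pv p a = a - 1 := by
  unfold pv
  rw [if_neg (by omega)]

theorem pv_one {p : ℕ} : pv p 1 = p := by
  unfold pv
  rw [if_pos rfl]

theorem Fr.oneA (H : Hyp p sig tau) {K KA : ℕ} {n : ℕ → ℕ} {h : ℕ} {s u : Bool × ℕ}
    (F : Fr p sig i t x K KA n h s u) :
    ∀ a, 1 ≤ a → a ≤ p → ¬ (fzA p i KA t x n (pv p a) ∧ fzA p i KA t x n a) := by
  rintro a ha hap ⟨h1, h2⟩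
  have hp := H.hp
  have ho := H.podd
  have hev : a % 2 = 0 ∨ (a = p ∧ t (i + 1) ≠ p) := by
    rcases h2 with ⟨j, hj, h3⟩ | ⟨q, hq, h3⟩ | h3
    · have := F.L.xev j hj
      omega
    · have := F.lq hq
      omega
    · exact Or.inr h3
  have ha2 : 2 ≤ a := by omega
  rw [pv_eq ha2] at h1
  rcases h1 with ⟨j, hj, h3⟩ | ⟨q, hq, h3⟩ | h3
  · have h4 := F.L.xev j hj
    have h5 := F.L.x_le hj le_rfl
    have h6 := F.L.xp i le_rfl
    have h7 := F.L.ts i le_rfl
    omega
  · have := F.lq hq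
    omega
  · omega

theorem Fr.oneB (H : Hyp p sig tau) {K KA : ℕ} {n : ℕ → ℕ} {h : ℕ} {s u : Bool × ℕ}
    (F : Fr p sig i t x K KA n h s u) :
    ∀ b, 1 ≤ b → b ≤ p → ¬ (fzB sig i K h t n (pv p b) ∧ fzB sig i K h t n b) := by
  rintro b hb hbp ⟨h1, h2⟩
  have hp := H.hp
  have ho := H.podd
  obtain ⟨hm2, hmp⟩ := H.m_lt
  have hsti := F.L.st_le (Nat.zero_le i) le_rfl
  have ht0 := F.L.t0
  rw [ht0] at hsti
  have hev : b % 2 = 0 ∨ b = p := by
    rcases h2 with ⟨j, hj, h3⟩ | ⟨q, hq, h3⟩ | h3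
    · have := F.L.sev j hj
      omega
    · have := F.C.sev q hq
      omega
    · rcases F.hv with ⟨h4, _⟩ | ⟨h4, h5, _⟩
      · omega
      · omega
  have hb2 : 2 ≤ b := by omega
  rw [pv_eq hb2] at h1
  rcases h1 with ⟨j, hj, h3⟩ | ⟨q, hq, h3⟩ | h3
  · have h4 := F.L.sev j hj
    have h5 := F.L.st_le (Nat.zero_le j) hj
    rw [ht0] at h5
    omega
  · have h4 := F.C.sev q hq
    have h5 := F.C.sl_lt H F.L hq
    omega
  · rcases F.hv with ⟨h4, _⟩ | ⟨h4, h5, h6, _⟩
    · omega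
    · omega

theorem Fr.notX (H : Hyp p sig tau) {K KA : ℕ} {n : ℕ → ℕ} {h : ℕ} {s u : Bool × ℕ}
    (F : Fr p sig i t x K KA n h s u) :
    ∀ a, 1 ≤ a → a ≤ p → ¬ fX p i K KA t x n a →
      ¬ fzA p i KA t x n a ∧ ¬ fzA p i KA t x n (pv p a) ∧ ¬ fzB sig i K h t n (sig a) ∧
        ¬ fzB sig i K h t n (pv p (sig a)) := by
  intro a ha hap hX
  have hp := H.hp
  have ho := H.podd
  obtain ⟨hm2, hmp⟩ := H.m_lt
  have hsa := H.sig_mem a ha hap
  have hnK1 := F.nK.1
  have hnK2 := F.nK.2.1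
  have hKA : K ≤ KA ∧ KA ≤ K + 1 := by
    rcases F.ty with ⟨h1, _⟩ | ⟨h1, _⟩ <;> omega
  refine ⟨?_, ?_, ?_, ?_⟩
  · rintro (⟨j, hj, h3⟩ | ⟨q, hq, h3⟩ | h3)
    · exact hX (Or.inr (Or.inr (Or.inl ⟨j, hj, h3⟩)))
    · exact hX (Or.inr (Or.inr (Or.inr (Or.inr ⟨q, hq, h3⟩))))
    · exact hX (Or.inl h3.1)
  · intro h1
    rcases Nat.lt_or_ge a 2 with h2 | h2
    · have h4 : a = 1 := by omega
      exact hX (Or.inr (Or.inl ⟨0, by omega, by rw [F.L.t0]; exact h4⟩))
    · rw [pv_eq h2] at h1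
      rcases h1 with ⟨j, hj, h3⟩ | ⟨q, hq, h3⟩ | h3
      · exact hX (Or.inr (Or.inl ⟨j + 1, by omega, by rw [F.L.ts j hj]; omega⟩))
      · have h5 := F.lq hq
        exact hX (Or.inr (Or.inr (Or.inr (Or.inl ⟨q, h5.2.2.2.2, by omega⟩))))
      · omega
  · rintro (⟨j, hj, h3⟩ | ⟨q, hq, h3⟩ | h3)
    · have h4 := F.L.tpos j (by omega)
      have h5 := H.sig_inj ha hap h4.1 h4.2 h3
      exact hX (Or.inr (Or.inl ⟨j, by omega, h5⟩))
    · have h4 := F.C.n3 q hq
      have h6 := F.C.np q hq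
      have h5 := H.sig_inj ha hap (by omega) (by omega) h3
      exact hX (Or.inr (Or.inr (Or.inr (Or.inr ⟨q, by omega, h5⟩))))
    · rcases F.hv with ⟨h4, _⟩ | ⟨h4, _⟩
      · rw [h4, ← H.sig_p] at h3
        have h5 := H.sig_inj ha hap (by omega) le_rfl h3
        exact hX (Or.inl h5)
      · rw [h4] at h3
        have h6 := F.L.tpos (i + 1) le_rfl
        have h5 := H.sig_inj ha hap h6.1 h6.2 h3
        exact hX (Or.inr (Or.inl ⟨i + 1, by omega, h5⟩))
  · intro h1
    have hnq : ∀ q ≤ K, sig a = sig (n q) → False := by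
      intro q hq h3
      have h7 : 1 ≤ n q ∧ n q ≤ p := by
        rcases Nat.lt_or_ge q K with h6 | h6
        · have h8 := F.C.n3 q h6
          have h9 := F.C.np q h6
          omega
        · have : q = K := by omega
          subst this
          exact ⟨hnK1, hnK2⟩
      have h5 := H.sig_inj ha hap h7.1 h7.2 h3
      exact hX (Or.inr (Or.inr (Or.inr (Or.inl ⟨q, hq, h5⟩))))
    rcases h1 with ⟨j, hj, h3⟩ | ⟨q, hq, h3⟩ | h3
    · have h4 := F.L.sx j hj
      have h5 := F.L.sev j hj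
      have h8 := F.L.xp j hj
      have h9 := F.L.tx j hj
      have h10 := F.L.st_le (Nat.zero_le j) hj
      rw [F.L.t0] at h10
      have h6 : sig a = sig (x j) := by
        unfold pv at h3
        split_ifs at h3 <;> omega
      have h7 := H.sig_inj ha hap (by omega) (by omega) h6
      exact hX (Or.inr (Or.inr (Or.inl ⟨j, hj, h7⟩)))
    · have h4 := F.C.step q hq
      have h5 := F.C.sl_lt H F.L hq
      apply hnq (q + 1) (by omega)
      unfold pv at h3
      split_ifs at h3 <;> omega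
    · apply hnq 0 (by omega)
      rw [F.n0]
      have h4 : 1 ≤ h := by
        rcases F.hv with ⟨h4, _⟩ | ⟨h4, _⟩
        · omega
        · have h6 := F.L.tpos (i + 1) le_rfl
          have h7 := H.sig_mem _ h6.1 h6.2
          omega
      unfold pv at h3
      unfold nx
      split_ifs at h3 ⊢ <;> omega

theorem Fr.covA (H : Hyp p sig tau) {K KA : ℕ} {n : ℕ → ℕ} {h : ℕ} {s u : Bool × ℕ}
    (F : Fr p sig i t x K KA n h s u) :
    ∀ a, 1 ≤ a → a ≤ p → fX p i K KA t x n a →
      ((fzA p i KA t x n (pv p a) ∨ fzA p i KA t x n a) ↔ ((true, a) ≠ s ∧ (true, a) ≠ u)) := by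
  intro a ha hap hX
  have hp := H.hp
  have ho := H.podd
  have hme := H.m_even
  obtain ⟨hm2, hmp⟩ := H.m_lt
  obtain ⟨hnK1, hnK2, hnK3, hnK4⟩ := F.nK
  have hKA : K ≤ KA ∧ KA ≤ K + 1 := by
    rcases F.ty with ⟨h1, _⟩ | ⟨h1, _⟩ <;> omega
  constructor
  · intro h1
    constructor
    · intro h2
      rcases F.ty with ⟨h3, h4⟩ | ⟨h3, h4, _⟩
      swap
      · rw [h4] at h2
        have := congrArg Prod.fst h2
        simp at this
      · rw [h4] at h2
        have h5 : a = n K := congrArg Prod.snd h2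
        subst h5
        have hne1 : n K ≠ 1 := by
          intro h6; rw [h6] at hnK3; omega
        have h7 : 2 ≤ n K := by omega
        rw [pv_eq h7] at h1
        rcases h1 with (⟨j, hj, h6⟩ | ⟨q, hq, h6⟩ | h6) | (⟨j, hj, h6⟩ | ⟨q, hq, h6⟩ | h6)
        · have h8 : n K = t (j + 1) := by
            rw [F.L.ts j hj]; omega
          rw [h8] at hnK3 hnK4
          rcases Nat.lt_or_ge j i with h9 | h9
          · have := F.L.sev (j + 1) (by omega)
            omega
          · have : j = i := by omega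
            subst this
            rcases F.hv with h10 | h10 <;> omega
        · have h8 := F.lq hq
          have h9 : n q = n K := by omega
          have h10 := F.C.sn_lt q K (by omega) le_rfl
          rw [h9] at h10
          omega
        · omega
        · exact F.nKx j hj h6
        · have h8 := F.lq hq
          rw [h6] at hnK3
          omega
        · rw [h6.1, H.sig_p] at hnK4
          omega
    · intro h2
      rcases F.hv with ⟨_, _, _, ⟨_, h3⟩ | ⟨h4, h3⟩⟩ | ⟨_, _, _, _, h3⟩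
      · rw [h3] at h2
        have := congrArg Prod.fst h2
        simp at this
      · rw [h3] at h2
        have h5 : a = 1 := congrArg Prod.snd h2
        subst h5
        rw [pv_one] at h1
        rcases h1 with (⟨j, hj, h6⟩ | ⟨q, hq, h6⟩ | h6) | (⟨j, hj, h6⟩ | ⟨q, hq, h6⟩ | h6)
        · have := F.L.xp j hj
          omega
        · have := F.lq hq
          omega
        · exact h6.2 h4
        · have := F.L.xev j hj
          omega
        · have := F.lq hq
          omega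
        · omega
      · rw [h3] at h2
        have := congrArg Prod.fst h2
        simp at this
  · rintro ⟨h1, h2⟩
    rcases hX with h3 | ⟨j, hj, h3⟩ | ⟨j, hj, h3⟩ | ⟨q, hq, h3⟩ | ⟨q, hq, h3⟩
    · by_cases h4 : t (i + 1) = p
      · left; left
        refine ⟨i, le_rfl, ?_⟩
        have h5 := F.L.ts i le_rfl
        rw [pv_eq (by omega)]
        omega
      · right; right; right
        exact ⟨h3, h4⟩
    · rcases Nat.eq_zero_or_pos j with h4 | h4
      · rw [h4, F.L.t0] at h3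
        subst h3
        rcases F.hv with ⟨_, _, _, ⟨h5, _⟩ | ⟨_, h5⟩⟩ | ⟨_, _, _, h5, _⟩
        · left; right; right
          exact ⟨pv_one, h5⟩
        · exact absurd h5.symm h2
        · left; right; right
          exact ⟨pv_one, h5.ne⟩
      · obtain ⟨r, rfl⟩ : ∃ r, j = r + 1 := ⟨j - 1, by omega⟩
        have h5 := F.L.ts r (by omega)
        have h6 := F.L.tx r (by omega)
        left; left
        refine ⟨r, by omega, ?_⟩
        rw [pv_eq (by omega)]
        omega
    · right; left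
      exact ⟨j, hj, h3⟩
    · by_cases h4 : q < KA
      · left; right; left
        have h5 := F.lq h4
        refine ⟨q, h4, ?_⟩
        rw [pv_eq (by omega), h3]
      · have h5 : q = K := by omega
        subst h5
        rcases F.ty with ⟨h6, h7⟩ | ⟨h6, _⟩
        · rw [h3, h7] at h1
          exact absurd rfl h1
        · omega
    · right; right; left
      exact ⟨q, hq, h3⟩

theorem Fr.covB (H : Hyp p sig tau) {K KA : ℕ} {n : ℕ → ℕ} {h : ℕ} {s u : Bool × ℕ}
    (F : Fr p sig i t x K KA n h s u) :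
    ∀ a, 1 ≤ a → a ≤ p → fX p i K KA t x n a →
      ((fzB sig i K h t n (pv p (sig a)) ∨ fzB sig i K h t n (sig a)) ↔
        ((false, a) ≠ s ∧ (false, a) ≠ u)) := by
  intro a ha hap hX
  have hp := H.hp
  have ho := H.podd
  have hme := H.m_even
  obtain ⟨hm2, hmp⟩ := H.m_lt
  obtain ⟨hnK1, hnK2, hnK3, hnK4⟩ := F.nK
  have hKA : K ≤ KA ∧ KA ≤ K + 1 := by
    rcases F.ty with ⟨h1, _⟩ | ⟨h1, _⟩ <;> omega
  have hst : ∀ j ≤ i, sig (t j) ≤ sig 1 := by
    intro j hj
    have := F.L.st_le (Nat.zero_le j) hj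
    rw [F.L.t0] at this
    exact this
  have hti := hst i le_rfl
  constructor
  · intro h1
    constructor
    · intro h2
      rcases F.ty with ⟨h3, h4⟩ | ⟨h3, h4, g1, g2, g3, g4, g5, g6⟩
      · rw [h4] at h2
        have := congrArg Prod.fst h2
        simp at this
      · rw [h4] at h2
        have h5 : a = n K - 1 := congrArg Prod.snd h2
        subst h5
        rw [pv_eq (by omega)] at h1
        rcases h1 with (⟨j, hj, h6⟩ | ⟨q, hq, h6⟩ | h6) | (⟨j, hj, h6⟩ | ⟨q, hq, h6⟩ | h6)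
        · have := F.L.sev j hj
          omega
        · have := F.C.sev q hq
          omega
        · rcases F.hv with ⟨h7, _⟩ | ⟨h7, h8, _⟩
          · have := H.sig_mem (n K - 1) (by omega) (by omega)
            omega
          · omega
        · have h7 := F.L.tpos j (by omega)
          have h8 := H.sig_inj (by omega) (by omega) h7.1 h7.2 h6
          have h9 := F.L.todd j (by omega)
          omega
        · have h7 := F.C.n3 q hq
          have h8 := F.C.np q hq
          have h9 := H.sig_inj (by omega) (by omega) (by omega) (by omega) h6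
          have h10 := g6 q hq
          omega
        · rcases F.hv with ⟨h7, _⟩ | ⟨h7, h8, _⟩
          · rw [h7, ← H.sig_p] at h6
            have h9 := H.sig_inj (by omega) (by omega) (by omega) (by omega) h6
            omega
          · rw [h7] at h6
            have h10 := F.L.tpos (i + 1) le_rfl
            have h9 := H.sig_inj (by omega) (by omega) h10.1 h10.2 h6
            have h11 := F.L.todd (i + 1) le_rfl
            omega
    · intro h2
      rcases F.hv with ⟨h7, h8, h9, ⟨h4, h3⟩ | ⟨_, h3⟩⟩ | ⟨h7, h8, h9, h4, h3⟩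
      · rw [h3] at h2
        have h5 : a = t (i + 1) := congrArg Prod.snd h2
        subst h5
        rw [pv_eq (by omega)] at h1
        rcases h1 with (⟨j, hj, h6⟩ | ⟨q, hq, h6⟩ | h6) | (⟨j, hj, h6⟩ | ⟨q, hq, h6⟩ | h6)
        · have h10 := F.L.sx j hj
          have h11 := F.L.xp j hj
          have h12 := F.L.tx j hj
          have h13 : sig (t (i + 1)) = sig (x j) := by omega
          have h14 := H.sig_inj ha hap (by omega) (by omega) h13
          have h15 := F.L.todd (i + 1) le_rfl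
          have h16 := F.L.xev j hj
          omega
        · have := F.C.sl_lt H F.L hq
          omega
        · have h10 := H.sig_mem _ ha hap
          omega
        · have := F.L.sev j hj
          omega
        · have := F.C.sev q hq
          omega
        · rw [h7, ← H.sig_p] at h6
          have := H.sig_inj ha hap (by omega) le_rfl h6
          exact h4 this
      · rw [h3] at h2
        have := congrArg Prod.fst h2
        simp at this
      · rw [h3] at h2
        have h5 : a = p := congrArg Prod.snd h2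
        subst h5
        rw [H.sig_p, pv_eq (by omega)] at h1
        rcases h1 with (⟨j, hj, h6⟩ | ⟨q, hq, h6⟩ | h6) | (⟨j, hj, h6⟩ | ⟨q, hq, h6⟩ | h6)
        · have := hst j hj
          omega
        · have := F.C.sl_lt H F.L hq
          omega
        · omega
        · have := hst j hj
          omega
        · have := F.C.sl_lt H F.L hq
          omega
        · omega
  · rintro ⟨h1, h2⟩
    rcases hX with h3 | ⟨j, hj, h3⟩ | ⟨j, hj, h3⟩ | ⟨q, hq, h3⟩ | ⟨q, hq, h3⟩
    · rcases F.hv with ⟨h7, _⟩ | ⟨_, _, _, _, h7⟩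
      · right; right; right
        rw [h3, H.sig_p, h7]
      · rw [h3, h7] at h2
        exact absurd rfl h2
    · rcases Nat.lt_or_ge i j with h4 | h4
      · have h5 : j = i + 1 := by omega
        subst h5
        rcases F.hv with ⟨h7, _, _, ⟨_, h8⟩ | ⟨h8, _⟩⟩ | ⟨h7, _⟩
        · rw [h3, h8] at h2
          exact absurd rfl h2
        · right; right; right
          rw [h3, h8, H.sig_p, h7]
        · right; right; right
          rw [h3, h7]
      · right; left
        exact ⟨j, h4, by rw [h3]⟩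
    · left; left
      have h4 := F.L.sx j hj
      have h5 := F.L.sev j hj
      have h6 := F.L.tpos j (by omega)
      have h7 := H.sig_mem _ h6.1 h6.2
      refine ⟨j, hj, ?_⟩
      rw [h3, pv_eq (by omega), h4]
      omega
    · rcases Nat.eq_zero_or_pos q with h4 | h4
      · left; right; right
        rw [h3, h4, F.n0]
        have h5 : 1 ≤ h := by
          rcases F.hv with ⟨h4, _⟩ | ⟨h4, _⟩
          · omega
          · have h6 := F.L.tpos (i + 1) le_rfl
            have h7 := H.sig_mem _ h6.1 h6.2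
            omega
        unfold nx pv
        split_ifs <;> omega
      · obtain ⟨r, rfl⟩ : ∃ r, q = r + 1 := ⟨q - 1, by omega⟩
        have h5 := F.C.step r (by omega)
        have h6 := F.C.sl r (by omega)
        left; right; left
        refine ⟨r, by omega, ?_⟩
        rw [h3, pv_eq (by omega), h5]
        omega
    · rcases Nat.lt_or_ge q K with h4 | h4
      · right; right; left
        exact ⟨q, h4, by rw [h3]⟩
      · rcases F.ty with ⟨h5, _⟩ | ⟨h5, h6, _⟩
        · omega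
        · have h7 : q = K := by omega
          rw [h3, h7, h6] at h1
          exact absurd rfl h1

theorem Fr.st (H : Hyp p sig tau) {K KA : ℕ} {n : ℕ → ℕ} {h : ℕ} {s u : Bool × ℕ}
    (F : Fr p sig i t x K KA n h s u) : s ≠ u := by
  have hp := H.hp
  have ho := H.podd
  have hme := H.m_even
  obtain ⟨hnK1, hnK2, hnK3, hnK4⟩ := F.nK
  have h15 := F.L.todd (i + 1) le_rfl
  intro h0
  rcases F.ty with ⟨_, h1⟩ | ⟨_, h1, g1, g2, g3, _⟩ <;>
    rcases F.hv with ⟨_, _, _, ⟨_, h2⟩ | ⟨_, h2⟩⟩ | ⟨_, _, _, _, h2⟩ <;>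
    rw [h1, h2] at h0
  · exact absurd (congrArg Prod.fst h0) (by simp)
  · have h3 : n K = 1 := congrArg Prod.snd h0
    rw [h3] at hnK3
    omega
  · exact absurd (congrArg Prod.fst h0) (by simp)
  · have h3 : n K - 1 = t (i + 1) := congrArg Prod.snd h0
    omega
  · exact absurd (congrArg Prod.fst h0) (by simp)
  · have h3 : n K - 1 = p := congrArg Prod.snd h0
    omega

theorem Fr.smem {K KA : ℕ} {n : ℕ → ℕ} {h : ℕ} {s u : Bool × ℕ}
    (F : Fr p sig i t x K KA n h s u) : 1 ≤ s.2 ∧ s.2 ≤ p ∧ fX p i K KA t x n s.2 := by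
  obtain ⟨hnK1, hnK2, hnK3, hnK4⟩ := F.nK
  rcases F.ty with ⟨_, h1⟩ | ⟨h5, h1, g1, g2, g3, _⟩
  · rw [h1]
    exact ⟨hnK1, hnK2, Or.inr (Or.inr (Or.inr (Or.inl ⟨K, le_rfl, rfl⟩)))⟩
  · rw [h1]
    refine ⟨?_, ?_, Or.inr (Or.inr (Or.inr (Or.inr ⟨K, by omega, rfl⟩)))⟩
    · show 1 ≤ n K - 1
      omega
    · show n K - 1 ≤ p
      omega

theorem Fr.umem (H : Hyp p sig tau) {K KA : ℕ} {n : ℕ → ℕ} {h : ℕ} {s u : Bool × ℕ}
    (F : Fr p sig i t x K KA n h s u) : 1 ≤ u.2 ∧ u.2 ≤ p ∧ fX p i K KA t x n u.2 := by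
  have hp := H.hp
  rcases F.hv with ⟨_, _, _, ⟨_, h2⟩ | ⟨_, h2⟩⟩ | ⟨_, _, _, _, h2⟩
  · rw [h2]
    have h3 := F.L.tpos (i + 1) le_rfl
    exact ⟨h3.1, h3.2, Or.inr (Or.inl ⟨i + 1, le_rfl, rfl⟩)⟩
  · rw [h2]
    refine ⟨le_rfl, ?_, Or.inr (Or.inl ⟨0, by omega, F.L.t0.symm⟩)⟩
    show 1 ≤ p
    omega
  · rw [h2]
    refine ⟨?_, le_rfl, Or.inl rfl⟩
    show 1 ≤ p
    omega

/-- A frame with colours is a certificate. -/
theorem Fr.cert (H : Hyp p sig tau) {K KA : ℕ} {n : ℕ → ℕ} {h : ℕ} {s u : Bool × ℕ}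
    (F : Fr p sig i t x K KA n h s u) (cA cB : ℕ → ℕ)
    (colA : ∀ a, 1 ≤ a → a ≤ p → ¬ fzA p i KA t x n a → (cA a + cA (nx p a)) % 2 = 1)
    (colB : ∀ b, 1 ≤ b → b ≤ p → ¬ fzB sig i K h t n b → (cB b + cB (nx p b)) % 2 = 1)
    (colX : ∀ a, 1 ≤ a → a ≤ p → fX p i K KA t x n a → (cA a + cB (sig a)) % 2 = 1) :
    Cert p sig (fzA p i KA t x n) (fzB sig i K h t n) (fX p i K KA t x n) cA cB s u :=
  ⟨colA, colB, colX, F.oneA H, F.oneB H, F.notX H, F.covA H, F.covB H, F.st H, F.smem, F.umem H⟩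

end Pool.Agent.Helper61.Rigid
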