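import Pool.Agent.Helper61.Rigid.Defs

/-!
The two staircases of a rigid permutation (helper61).
-/

namespace Pool.Agent.Helper61.Rigid

variable {p : ℕ} {sig tau : ℕ → ℕ}

theorem Hyp.sig_inj (H : Hyp p sig tau) {a b : ℕ} (ha : 1 ≤ a) (hap : a ≤ p) (hb : 1 ≤ b)
    (hbp : b ≤ p) (h : sig a = sig b) : a = b := by
  rw [← H.tau_sig a ha hap, ← H.tau_sig b hb hbp, h]

theorem Hyp.tau_inj (H : Hyp p sig tau) {a b : ℕ} (ha : 1 ≤ a) (hap : a ≤ p) (hb : 1 ≤ b)
    (hbp : b ≤ p) (h : tau a = tau b) : a = b := by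
  rw [← H.sig_tau a ha hap, ← H.sig_tau b hb hbp, h]

theorem Hyp.m_lt (H : Hyp p sig tau) : 2 ≤ sig 1 ∧ sig 1 < p - 1 := by
  have hp := H.hp
  have ho := H.podd
  have h1 := H.sig_mem 1 (by omega) (by omega)
  have h2 := H.m_even
  have h3 : sig 1 ≠ p - 1 := by
    intro h
    have h4 := H.tau_sig 1 (by omega) (by omega)
    have h5 := H.tau_sig p (by omega) (by omega)
    rw [H.sig_p] at h5
    have h6 := H.b_up (sig 1) (by omega) (by omega)
    have h7 : sig 1 + 1 = p := by omega
    rw [h7, h4, h5] at h6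
    have := h6 (by omega)
    omega
  omega

/-- The data of the descending staircase. -/
structure LD (p : ℕ) (sig : ℕ → ℕ) (i : ℕ) (t x : ℕ → ℕ) : Prop where
  t0 : t 0 = 1
  tx : ∀ j ≤ i, t j < x j
  xp : ∀ j ≤ i, x j < p
  ts : ∀ j ≤ i, t (j + 1) = x j + 1
  todd : ∀ j ≤ i + 1, t j % 2 = 1
  xev : ∀ j ≤ i, x j % 2 = 0
  sx : ∀ j ≤ i, sig (x j) = sig (t j) + 1
  sev : ∀ j ≤ i, sig (t j) % 2 = 0
  dec : ∀ j < i, sig (t (j + 1)) < sig (t j)

theorem LD.x_lt_t {i : ℕ} {t x : ℕ → ℕ} (L : LD p sig i t x) :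
    ∀ j j' : ℕ, j < j' → j' ≤ i + 1 → x j < t j' := by
  intro j j' h
  induction j' with
  | zero => omega
  | succ k ih =>
    intro hk
    rcases Nat.lt_or_ge j k with h1 | h1
    · have h2 := ih h1 (by omega)
      have h3 := L.tx k (by omega)
      have h4 := L.ts k (by omega)
      omega
    · have h2 : j = k := by omega
      subst h2
      have h4 := L.ts j (by omega)
      omega

theorem LD.x_lt {i : ℕ} {t x : ℕ → ℕ} (L : LD p sig i t x) {j j' : ℕ} (h : j < j')
    (hj : j' ≤ i) : x j < x j' := by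
  have h1 := L.x_lt_t j j' h (by omega)
  have h2 := L.tx j' hj
  omega

theorem LD.x_le {i : ℕ} {t x : ℕ → ℕ} (L : LD p sig i t x) {j j' : ℕ} (h : j ≤ j')
    (hj : j' ≤ i) : x j ≤ x j' := by
  rcases Nat.lt_or_ge j j' with h1 | h1
  · exact (L.x_lt h1 hj).le
  · have : j = j' := by omega
    rw [this]

theorem LD.st_lt {i : ℕ} {t x : ℕ → ℕ} (L : LD p sig i t x) :
    ∀ j j' : ℕ, j < j' → j' ≤ i → sig (t j') < sig (t j) := by
  intro j j' h
  induction j' with
  | zero => omega
  | succ k ih =>
    intro hk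
    have h3 := L.dec k (by omega)
    rcases Nat.lt_or_ge j k with h1 | h1
    · have h2 := ih h1 (by omega)
      omega
    · have h2 : j = k := by omega
      subst h2
      exact h3

theorem LD.st_le {i : ℕ} {t x : ℕ → ℕ} (L : LD p sig i t x) {j j' : ℕ} (h : j ≤ j')
    (hj : j' ≤ i) : sig (t j') ≤ sig (t j) := by
  rcases Nat.lt_or_ge j j' with h1 | h1
  · exact (L.st_lt j j' h1 hj).le
  · have : j = j' := by omega
    rw [this]

theorem LD.tpos {i : ℕ} {t x : ℕ → ℕ} (L : LD p sig i t x) (j : ℕ) (hj : j ≤ i + 1) :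
    1 ≤ t j ∧ t j ≤ p := by
  rcases Nat.eq_zero_or_pos j with h | h
  · subst h
    have h1 := L.t0
    have h2 := L.tx 0 (by omega)
    have h3 := L.xp 0 (by omega)
    omega
  · obtain ⟨k, rfl⟩ : ∃ k, j = k + 1 := ⟨j - 1, by omega⟩
    have h1 := L.ts k (by omega)
    have h2 := L.xp k (by omega)
    omega

theorem LD.t_lt {i : ℕ} {t x : ℕ → ℕ} (L : LD p sig i t x) {j j' : ℕ} (h : j < j')
    (hj : j' ≤ i + 1) : t j < t j' := by
  have h1 := L.x_lt_t j j' h hj
  have h2 := L.tx j (by omega)
  omega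

/-- The number `kap b`: the last step of the staircase not below `b`. -/
theorem LD.exists_kap {i : ℕ} {t x : ℕ → ℕ} (_L : LD p sig i t x) (b : ℕ)
    (hb : b ≤ sig (t 0)) :
    ∃ k ≤ i, b ≤ sig (t k) ∧ ∀ j ≤ i, k < j → sig (t j) < b := by
  classical
  refine ⟨Nat.findGreatest (fun j => b ≤ sig (t j)) i, Nat.findGreatest_le i, ?_, ?_⟩
  · exact Nat.findGreatest_spec (P := fun j => b ≤ sig (t j)) (Nat.zero_le i) hb
  · intro j hj hk
    have := Nat.findGreatest_is_greatest (P := fun j => b ≤ sig (t j)) hk hj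
    omega

/-- The block of the column `a`. -/
theorem LD.exists_blk {i : ℕ} {t x : ℕ → ℕ} (L : LD p sig i t x) (a : ℕ) (ha1 : 1 ≤ a)
    (ha : a ≤ x i) :
    ∃ k ≤ i, t k ≤ a ∧ a ≤ x k := by
  classical
  have hex : ∃ j, a ≤ x j := ⟨i, ha⟩
  refine ⟨Nat.find hex, Nat.find_min' hex ha, ?_, Nat.find_spec hex⟩
  have hle : Nat.find hex ≤ i := Nat.find_min' hex ha
  rcases Nat.eq_zero_or_pos (Nat.find hex) with h | h
  · rw [h, L.t0]; exact ha1
  · obtain ⟨k, hk⟩ : ∃ k, Nat.find hex = k + 1 := ⟨Nat.find hex - 1, by omega⟩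
    have h1 : ¬ a ≤ x k := Nat.find_min hex (by omega)
    rw [hk, L.ts k (by omega)]
    omega

/-- The staircase. -/
def tt (sig tau : ℕ → ℕ) : ℕ → ℕ
  | 0 => 1
  | j + 1 => tau (sig (tt sig tau j) + 1) + 1

/-- The upper points of the staircase. -/
def xx (sig tau : ℕ → ℕ) (j : ℕ) : ℕ := tau (sig (tt sig tau j) + 1)

theorem tt_succ (j : ℕ) : tt sig tau (j + 1) = xx sig tau j + 1 := rfl

theorem exists_LD (H : Hyp p sig tau) :
    ∃ i t x, LD p sig i t x ∧
      ((sig (t (i + 1)) % 2 = 1 ∧ sig 1 < sig (t (i + 1))) ∨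
        (sig (t (i + 1)) % 2 = 0 ∧ sig (t (i + 1)) < sig (t i) ∧ t (i + 1) < p ∧
          tau (sig (t (i + 1)) + 1) < t (i + 1) ∧ tau (sig (t (i + 1)) + 1) % 2 = 1)) := by
  have hp := H.hp
  have ho := H.podd
  obtain ⟨hm2, hmp⟩ := H.m_lt
  have hme := H.m_even
  set t := tt sig tau with ht
  set x := xx sig tau with hx
  have hts : ∀ j, t (j + 1) = x j + 1 := fun j => rfl
  have hxd : ∀ j, x j = tau (sig (t j) + 1) := fun j => rfl
  have ht0 : t 0 = 1 := rfl
  -- the step from a good lower point to the upper point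
  have hstep : ∀ j, 1 ≤ t j → t j ≤ p → t j % 2 = 1 → sig (t j) % 2 = 0 → sig (t j) < p →
      t j < x j → x j < p ∧ x j % 2 = 0 ∧ sig (x j) = sig (t j) + 1 := by
    intro j h1 h2 h3 h4 h5 h6
    have hb := H.sig_mem (t j) h1 h2
    have h7 := H.sig_tau (sig (t j) + 1) (by omega) (by omega)
    have h8 := H.tau_mem (sig (t j) + 1) (by omega) (by omega)
    have h9 := H.b_up (sig (t j)) (by omega) (by omega)
    rw [H.tau_sig (t j) h1 h2] at h9
    rw [← hxd j] at h7 h8 h9
    have h10 := h9 h6
    refine ⟨by omega, by omega, h7⟩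
  have hP0 : LD p sig 0 t x := by
    have h6 : t 0 < x 0 := by
      have h1 := H.sig_tau (sig 1 + 1) (by omega) (by omega)
      have h2 := H.tau_mem (sig 1 + 1) (by omega) (by omega)
      have h3 : x 0 = tau (sig 1 + 1) := rfl
      rw [← h3] at h1 h2
      have h4 : x 0 ≠ 1 := by
        intro h; rw [h] at h1; omega
      omega
    have h7 := hstep 0 (by omega) (by omega) (by omega) (by rw [ht0]; exact hme)
      (by rw [ht0]; omega) h6
    have hz : ∀ j ≤ 0, j = 0 := fun j hj => by omega
    refine ⟨ht0, ?_, ?_, ?_, ?_, ?_, ?_, ?_, ?_⟩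
    · intro j hj; rw [hz j hj]; exact h6
    · intro j hj; rw [hz j hj]; exact h7.1
    · intro j hj; exact hts j
    · intro j hj
      have : j = 0 ∨ j = 1 := by omega
      rcases this with rfl | rfl
      · rw [ht0]
      · have h8 := hts 0
        rw [Nat.zero_add] at h8
        have h9 := h7.2.1
        omega
    · intro j hj; rw [hz j hj]; exact h7.2.1
    · intro j hj; rw [hz j hj]; exact h7.2.2
    · intro j hj; rw [hz j hj, ht0]; exact hme
    · intro j hj; omega
  have hbound : ∀ i, LD p sig i t x → ∀ j ≤ i, sig (t j) + j ≤ sig 1 := by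
    intro i L j
    induction j with
    | zero => intro _; rw [ht0]; omega
    | succ k ih =>
      intro hk
      have h1 := ih (by omega)
      have h2 := L.dec k (by omega)
      omega
  have hex : ∃ i, LD p sig i t x ∧ ¬ LD p sig (i + 1) t x := by
    by_contra hcon
    push Not at hcon
    have hall : ∀ i, LD p sig i t x := by
      intro i
      induction i with
      | zero => exact hP0
      | succ k ih => exact hcon k ih
    have h1 := hbound (sig 1) (hall _) (sig 1) le_rfl
    have h2 := (hall (sig 1)).tpos (sig 1) (by omega)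
    have h3 := H.sig_mem _ h2.1 h2.2
    omega
  obtain ⟨i, L, hnot⟩ := hex
  refine ⟨i, t, x, L, ?_⟩
  have hxi := L.xp i le_rfl
  have htx := L.tx i le_rfl
  have hti := L.tpos i (by omega)
  have hti1 := L.tpos (i + 1) le_rfl
  have htodd := L.todd (i + 1) le_rfl
  have hxe := L.xev i le_rfl
  have hsx := L.sx i le_rfl
  have hse := L.sev i le_rfl
  have hstm := hbound i L i le_rfl
  have hs1 := H.sig_mem (t (i + 1)) hti1.1 hti1.2
  have hts' := hts i
  have hne : sig (t (i + 1)) ≠ sig (x i) := by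
    intro h
    have := H.sig_inj hti1.1 hti1.2 (by omega) (by omega) h
    omega
  have hne2 : sig (t (i + 1)) ≠ sig (t i) := by
    intro h
    have := H.sig_inj hti1.1 hti1.2 hti.1 hti.2 h
    omega
  rcases Nat.lt_or_gt_of_ne hne with hlt | hgt
  · right
    have h1 := H.a_down (x i) (by omega) hxi
    rw [← hts'] at h1
    have h2 := h1 hlt
    have hev : sig (t (i + 1)) % 2 = 0 := by omega
    have hlt2 : sig (t (i + 1)) < sig (t i) := by omega
    have htp : t (i + 1) < p := by
      rcases Nat.lt_or_ge (t (i + 1)) p with h | h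
      · exact h
      · exfalso
        have h5 : t (i + 1) = p := by omega
        rw [h5, H.sig_p] at hlt2
        omega
    have hb8 := H.tau_mem (sig (t (i + 1)) + 1) (by omega) (by omega)
    have hb7 := H.sig_tau (sig (t (i + 1)) + 1) (by omega) (by omega)
    have hne3 : tau (sig (t (i + 1)) + 1) ≠ t (i + 1) := by
      intro h; rw [h] at hb7; omega
    rcases Nat.lt_or_gt_of_ne hne3 with hl | hg
    · refine ⟨hev, hlt2, htp, hl, ?_⟩
      have h9 := H.b_down (sig (t (i + 1))) (by omega) (by omega)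
      rw [H.tau_sig (t (i + 1)) hti1.1 hti1.2] at h9
      have := h9 hl
      omega
    · exfalso
      apply hnot
      have h7 := hstep (i + 1) hti1.1 hti1.2 htodd hev (by omega) hg
      refine ⟨ht0, ?_, ?_, fun j _ => hts j, ?_, ?_, ?_, ?_, ?_⟩
      · intro j hj
        rcases Nat.lt_or_ge i j with h | h
        · have : j = i + 1 := by omega
          rw [this]; exact hg
        · exact L.tx j h
      · intro j hj
        rcases Nat.lt_or_ge i j with h | h
        · have : j = i + 1 := by omega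
          rw [this]; exact h7.1
        · exact L.xp j h
      · intro j hj
        rcases Nat.lt_or_ge (i + 1) j with h | h
        · have : j = i + 1 + 1 := by omega
          rw [this, hts (i + 1)]
          have := h7.2.1
          omega
        · exact L.todd j h
      · intro j hj
        rcases Nat.lt_or_ge i j with h | h
        · have : j = i + 1 := by omega
          rw [this]; exact h7.2.1
        · exact L.xev j h
      · intro j hj
        rcases Nat.lt_or_ge i j with h | h
        · have : j = i + 1 := by omega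
          rw [this]; exact h7.2.2
        · exact L.sx j h
      · intro j hj
        rcases Nat.lt_or_ge i j with h | h
        · have : j = i + 1 := by omega
          rw [this]; exact hev
        · exact L.sev j h
      · intro j hj
        rcases Nat.lt_or_ge j i with h | h
        · exact L.dec j h
        · have : j = i := by omega
          rw [this]; exact hlt2
  · left
    have h1 := H.a_up (x i) (by omega) hxi
    rw [← hts'] at h1
    have h2 := h1 hgt
    have h3 := H.nm (x i) (by omega) hxi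
    rw [← hts'] at h3
    have h4 := h3 hgt
    omega

end Pool.Agent.Helper61.Rigid
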